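import Pool.Agent.Helper73.KT.Ops

/-!
K'', block B1: the blocks of a subspace of the tensor power which is stable under a subgroup of finite index are stable under
the product of the special linear groups.
-/

set_option autoImplicit false

open Matrix H77MT Pool.Agent.Helper79.KN Pool.Agent.Helper33.KN

namespace Pool.Agent.Helper61.KT

section Poly

variable {N n K : Type} [Fintype N] [DecidableEq N] [Fintype n] [DecidableEq n] [Field K]

/-- polynomial functions -/
def IsPoly (F : Matrix N N K → K) : Prop := ∃ f : MvPolynomial (N × N) K, ∀ y, ev y f = F y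

lemma IsPoly.const (c : K) : IsPoly (fun _ : Matrix N N K => c) := ⟨MvPolynomial.C c, fun y => ev_C y c⟩

lemma IsPoly.entry (i j : N) : IsPoly (fun y : Matrix N N K => y i j) := ⟨MvPolynomial.X (i, j), fun y => ev_X y _⟩

lemma IsPoly.mul {F G : Matrix N N K → K} (hF : IsPoly F) (hG : IsPoly G) : IsPoly (fun y => F y * G y) := by
  obtain ⟨f, hf⟩ := hF
  obtain ⟨g, hg⟩ := hG
  exact ⟨f * g, fun y => by rw [map_mul, hf, hg]⟩

lemma IsPoly.sum {ι : Type} (s : Finset ι) {F : ι → Matrix N N K → K} (h : ∀ i, IsPoly (F i)) :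
    IsPoly (fun y => ∑ i ∈ s, F i y) := by
  choose f hf using h
  exact ⟨∑ i ∈ s, f i, fun y => by rw [map_sum]; exact Finset.sum_congr rfl fun i _ => hf i y⟩

lemma IsPoly.prod {ι : Type} (s : Finset ι) {F : ι → Matrix N N K → K} (h : ∀ i, IsPoly (F i)) :
    IsPoly (fun y => ∏ i ∈ s, F i y) := by
  choose f hf using h
  exact ⟨∏ i ∈ s, f i, fun y => by rw [map_prod]; exact Finset.prod_congr rfl fun i _ => hf i y⟩

lemma IsPoly.vanish {F : Matrix N N K → K} (h : IsPoly F) {S : Set (Matrix N N K)} (hS : ∀ s ∈ S, F s = 0)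
    {x : Matrix N N K} (hx : x ∈ zcl S) : F x = 0 := by
  obtain ⟨f, hf⟩ := h
  rw [← hf]
  exact hx f fun s hs => by rw [hf, hS s hs]

/-- matrices with polynomial entries -/
def IsPolyM (G : Matrix N N K → Matrix n n K) : Prop := ∀ i j, IsPoly (fun y => G y i j)

lemma IsPolyM.det {F : Matrix N N K → Matrix n n K} (hF : IsPolyM F) : IsPoly (fun y => (F y).det) := by
  simp only [Matrix.det_apply, Units.smul_def, zsmul_eq_mul]
  exact .sum _ fun σ => (IsPoly.const _).mul (.prod _ fun i => hF _ _)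

lemma IsPolyM.adjugate {F : Matrix N N K → Matrix n n K} (hF : IsPolyM F) : IsPolyM (fun y => (F y).adjugate) := by
  intro i j
  simp only [Matrix.adjugate_apply]
  apply IsPolyM.det
  intro k l
  by_cases hk : k = j
  · subst hk
    simp only [Matrix.updateRow_self]
    exact .const _
  · simp only [Matrix.updateRow_ne hk]
    exact hF k l

/-- polynomial functions with values in a vector space -/
def IsPolyV {W : Type} [AddCommGroup W] [Module K W] (F : Matrix N N K → W) : Prop :=
  ∀ l : W →ₗ[K] K, IsPoly fun y => l (F y)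

lemma IsPolyV.of {F : Matrix N N K → K} (h : IsPoly F) : IsPolyV F := by
  intro l
  have h1 : ∀ y, l (F y) = F y * l 1 := fun y => by
    have := l.map_smul (F y) 1
    rwa [smul_eq_mul, mul_one, smul_eq_mul] at this
  simp only [h1]
  exact h.mul (.const _)

lemma IsPolyV.pi {ι : Type} [Fintype ι] [DecidableEq ι] {W : ι → Type} [∀ i, AddCommGroup (W i)] [∀ i, Module K (W i)]
    {F : Matrix N N K → ∀ i, W i} (h : ∀ i, IsPolyV fun y => F y i) : IsPolyV F := by
  intro l
  have h1 : ∀ y, l (F y) = ∑ i, (l.comp (LinearMap.single K W i)) (F y i) := by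
    intro y
    conv_lhs => rw [← Finset.univ_sum_single (F y), map_sum]
    rfl
  simp only [h1]
  exact .sum _ fun i => h i _

end Poly

variable {Γ X n K ι : Type} [Group Γ] [Fintype X] [DecidableEq X] [Fintype n] [DecidableEq n] [Field K] [Fintype ι]
  [DecidableEq ι]

lemma isPolyM_pact (i : X × Bool) : IsPolyM fun y : Matrix (n × X) (n × X) K => pact (blk y i.1) i.2 := by
  obtain ⟨x, b⟩ := i
  have h1 : IsPolyM fun y : Matrix (n × X) (n × X) K => blk y x := fun _ _ => .entry _ _
  cases b
  · exact fun i j => h1.adjugate j i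
  · exact h1

lemma ten_smul (z : ι → K) (A : ι → Matrix n n K) (M : (ι → n) → K) :
    Helper73.KT.ten (fun a => z a • A a) M = (∏ a, z a) • Helper73.KT.ten A M := by
  funext s
  simp only [Helper73.KT.ten, Pi.smul_apply, Matrix.smul_apply, smul_eq_mul, Finset.prod_mul_distrib, Finset.mul_sum,
    mul_assoc]

/-- stable subspaces of a block of the tensor power -/
theorem closed_ten {S : Set (Matrix (n × X) (n × X) K)} {R : Submodule K ((ι → n) → K)} (i : ι → X × Bool)
    (h : ∀ s ∈ S, ∀ M ∈ R, Helper73.KT.ten (fun a => pact (blk s (i a).1) (i a).2) M ∈ R)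
    {A : Matrix (n × X) (n × X) K} (hA : A ∈ zcl S) {M : (ι → n) → K} (hM : M ∈ R) :
    Helper73.KT.ten (fun a => pact (blk A (i a).1) (i a).2) M ∈ R := by
  by_contra hn
  obtain ⟨φ, hφ, hP⟩ := Submodule.exists_le_ker_of_notMem hn
  apply hφ
  have hpoly : IsPolyV fun y : Matrix (n × X) (n × X) K =>
      Helper73.KT.ten (fun a => pact (blk y (i a).1) (i a).2) M := by
    refine .pi fun s => .of ?_
    exact .sum _ fun t => IsPoly.mul (.prod _ fun a => isPolyM_pact (i a) (s a) (t a)) (.const _)
  exact (hpoly φ).vanish (fun s hs => hP (h s hs M hM)) hA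

end Pool.Agent.Helper61.KT

namespace Pool.Agent.Helper73.KT

open Pool.Agent.Helper61.KT

variable {Γ X n K ι : Type} [Group Γ] [Fintype X] [DecidableEq X] [Fintype n] [DecidableEq n] [Field K] [Fintype ι]
  [DecidableEq ι]

/-- the projection to the block with the labels `i` -/
def evTen (i : ι → X × Bool) : ((ι → X × Bool) → (ι → n) → K) →ₗ[K] ((ι → n) → K) := LinearMap.proj i

/-- B1 -/
theorem block_stab {ρ : Rep Γ X n K} (hfull : IsFull ρ) {m : ℕ} {c : Γ →* Kˣ} {Δ : Subgroup Γ} (hΔ : Δ.FiniteIndex)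
    {P : Submodule K ((ι → X × Bool) → (ι → n) → K)} (hP : ∀ γ ∈ Δ, ∀ u ∈ P, actTen ρ m c γ u ∈ P)
    (i : ι → X × Bool) : Stab i (P.map (evTen i)) := by
  intro A hA M hM
  have h1 := closed_ten (S := img ρ Δ) (R := P.map (evTen i)) i ?_ (hfull Δ hΔ A hA) hM
  · simpa only [blk_blockDiagonal] using h1
  · rintro _ ⟨γ, hγ, rfl⟩ M' hM'
    obtain ⟨u, hu, rfl⟩ := hM'
    choose z hz using fun a => pact_eq ρ m c γ (i a)
    have h2 : (fun a => pact (blk (mat ρ γ) (i a).1) (i a).2) = fun a => z a • act ρ m c γ (i a) := by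
      funext a
      rw [mat, blk_blockDiagonal]
      exact hz a
    rw [h2, ten_smul]
    exact Submodule.smul_mem _ _ ⟨_, hP γ hγ u hu, rfl⟩

end Pool.Agent.Helper73.KT
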