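import Pool.Agent.Helper40.KT.Unit

/-!
K'', block B7b: change of the index set, `exists_unit_ten` from its form for `Fin N`.
-/

set_option autoImplicit false

open Matrix H77MT Pool.Agent.Helper79.KN Pool.Agent.Helper33.KN Pool.Agent.Helper73.KT Pool.Agent.Helper40.KT

namespace Pool.Agent.Helper61.KT

section reind

variable {X n n' K ι : Type} [Fintype n] [DecidableEq n] [Fintype n'] [DecidableEq n'] [Field K] [Fintype ι]
  [DecidableEq ι]

/-- change of the index set -/
def re (K ι : Type) [Field K] (e : n ≃ n') : ((ι → n) → K) ≃ₗ[K] ((ι → n') → K) :=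
  LinearEquiv.funCongrLeft K K ((Equiv.refl ι).arrowCongr e.symm)

omit [Fintype n] [DecidableEq n] [Fintype n'] [DecidableEq n'] [Fintype ι] [DecidableEq ι] in
lemma re_apply (e : n ≃ n') (M : (ι → n) → K) (s : ι → n') : re K ι e M s = M fun a => e.symm (s a) := rfl

omit [Fintype n] [DecidableEq n] [Fintype n'] [DecidableEq n'] [Fintype ι] [DecidableEq ι] in
lemma re_symm_apply (e : n ≃ n') (M : (ι → n') → K) (s : ι → n) : (re K ι e).symm M s = M fun a => e (s a) := rfl

omit [DecidableEq n] [DecidableEq n'] in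
lemma ten_re (e : n ≃ n') (A : ι → Matrix n n K) (M : (ι → n) → K) :
    ten (fun a => reindex e e (A a)) (re K ι e M) = re K ι e (ten A M) := by
  funext s
  rw [re_apply]
  simp only [ten]
  rw [← ((Equiv.refl ι).arrowCongr e).sum_comp]
  refine Finset.sum_congr rfl fun t _ => ?_
  rw [re_apply]
  congr 1
  · refine Finset.prod_congr rfl fun a _ => ?_
    simp [Matrix.reindex_apply, Matrix.submatrix_apply, Equiv.arrowCongr_apply]
  · congr 1
    funext a
    simp [Equiv.arrowCongr_apply]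

lemma pact_reindex (e : n ≃ n') (A : Matrix n n K) (b : Bool) : pact (reindex e e A) b = reindex e e (pact A b) := by
  unfold pact
  cases b
  · simp only [Bool.false_eq_true, if_false]
    rw [Matrix.adjugate_reindex]
    rfl
  · simp

lemma stab_re (e : n ≃ n') {i : ι → X × Bool} {R : Submodule K ((ι → n) → K)} (hR : Stab i R) :
    Stab i (R.map (re K ι e).toLinearMap) := by
  rintro A hA _ ⟨M, hM, rfl⟩
  refine ⟨_, hR (fun x => reindex e.symm e.symm (A x)) (fun x => ?_) M hM, ?_⟩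
  · rw [Matrix.det_reindex_self]
    exact hA x
  · show re K ι e _ = _
    rw [← ten_re]
    show ten _ (re K ι e M) = ten _ (re K ι e M)
    congr 1
    funext a
    rw [← pact_reindex]
    congr 1
    ext p q
    simp

lemma pairs_re (e : n ≃ n') (i : ι → X × Bool) (q : ℕ) {M : (ι → n') → K} (hM : M ∈ pairs K n' i q) :
    (re K ι e).symm M ∈ pairs K n i q := by
  unfold pairs at hM
  induction hM using Submodule.span_induction with
  | mem M hM =>
    obtain ⟨f, g, hfg, hi, N, hN, hMN⟩ := hM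
    refine Submodule.subset_span ⟨f, g, hfg, hi, fun s => N fun a => e (s a), fun s t h => ?_, fun s => ?_⟩
    · exact hN _ _ fun a ha => by rw [h a ha]
    · rw [re_symm_apply, hMN]
      simp only [EmbeddingLike.apply_eq_iff_eq]
  | zero => rw [map_zero]; exact Submodule.zero_mem _
  | add x y _ _ hx hy => rw [map_add]; exact Submodule.add_mem _ hx hy
  | smul a x _ hx => rw [map_smul]; exact Submodule.smul_mem _ _ hx

lemma reindex_pow (e : n ≃ n') (A : Matrix n n K) (k : ℕ) : reindex e e (A ^ k) = (reindex e e A) ^ k := by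
  rw [← Matrix.coe_reindexAlgEquiv K K, map_pow]

end reind

end Pool.Agent.Helper61.KT

namespace Pool.Agent.Helper61.KT

variable {X K ι : Type} [Fintype X] [DecidableEq X] [Field K] [CharZero K] [IsAlgClosed K] [Fintype ι] [DecidableEq ι]

variable (X K ι) in
open Classical in
/-- the form for `Fin N` -/
def UnitFin : Prop :=
  ∀ {N : ℕ} (_ : Fintype.card ι ^ 2 < N) (G G' : X → Matrix (Fin N) (Fin N) K) (w : K), w ≠ 0 →
    (∀ x, (G x)ᵀ * G' x = w • 1) → ∀ O : ValuationSubring K, O.valuation w < 1 → ∀ i : ι → X × Bool,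
    (∀ a, mult i a ≤ ((pr G G' (i a)).charpoly.roots.filter fun z => O.valuation z = 1).card) →
    ∀ R : Submodule K ((ι → Fin N) → K), Stab i R → ¬ R ≤ pairs K (Fin N) i 1 → ∀ k : ℕ,
    (∀ M ∈ R, ten (fun a => pr G G' (i a) ^ k) M ∈ R) →
    ∃ M ∈ R, M ≠ 0 ∧ ∃ z : K, O.valuation z = 1 ∧ ten (fun a => pr G G' (i a) ^ k) M = z • M

open Classical in
/-- B7b from the form for `Fin N` -/
theorem unit_of_fin (hU : UnitFin X K ι) {Γ n : Type} [Group Γ] [Fintype n] [DecidableEq n]
    (hN : Fintype.card ι ^ 2 < Fintype.card n) {ρ : Rep Γ X n K} {m : ℕ} (hm : 0 < m)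
    {c : Γ →* Kˣ} {γ₀ : Γ} {O : ValuationSubring K} (hO : O.valuation (c γ₀ : K) < 1) (i : ι → X × Bool)
    (hcount : ∀ a, mult i a ≤ ((act ρ m c γ₀ (i a)).charpoly.roots.filter fun z => O.valuation z = 1).card)
    {R : Submodule K ((ι → n) → K)} (hR : Stab i R) (hS : ¬ R ≤ pairs K n i 1) {k : ℕ} (_hk : 0 < k)
    (hst : ∀ M ∈ R, ten (fun a => act ρ m c (γ₀ ^ k) (i a)) M ∈ R) :
    ∃ M ∈ R, M ≠ 0 ∧ ∃ z : K, O.valuation z = 1 ∧ ten (fun a => act ρ m c (γ₀ ^ k) (i a)) M = z • M := by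
  obtain ⟨N, hNn⟩ : ∃ N, N = Fintype.card n := ⟨_, rfl⟩
  let e : n ≃ Fin N := (Fintype.equivFin n).trans (finCongr hNn.symm)
  let G : X → Matrix (Fin N) (Fin N) K := fun x => reindex e e (act ρ m c γ₀ (x, true))
  let G' : X → Matrix (Fin N) (Fin N) K := fun x => reindex e e (act ρ m c γ₀ (x, false))
  have hpr : ∀ j : X × Bool, pr G G' j = reindex e e (act ρ m c γ₀ j) := by
    rintro ⟨x, b⟩
    cases b <;> rfl
  have hw : ((c γ₀ : K) ^ m) ≠ 0 := pow_ne_zero _ (c γ₀).ne_zero
  have hten : ∀ M : (ι → n) → K, ten (fun a => pr G G' (i a) ^ k) (re K ι e M) =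
      re K ι e (ten (fun a => act ρ m c (γ₀ ^ k) (i a)) M) := by
    intro M
    rw [← ten_re]
    congr 1
    funext a
    rw [hpr, act_pow, reindex_pow]
  have hdual : ∀ x, (G x)ᵀ * G' x = ((c γ₀ : K) ^ m) • 1 := by
    intro x
    show (reindex e e (act ρ m c γ₀ (x, true)))ᵀ * reindex e e (act ρ m c γ₀ (x, false)) = _
    have h2 : (reindex e e (act ρ m c γ₀ (x, true)))ᵀ = reindex e e (act ρ m c γ₀ (x, true))ᵀ := rfl
    rw [h2, ← Matrix.coe_reindexAlgEquiv K K, ← map_mul]
    have h3 : (act ρ m c γ₀ (x, true))ᵀ * act ρ m c γ₀ (x, false) = ((c γ₀ : K) ^ m) • 1 := act_dual ρ m c γ₀ (x, true)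
    rw [h3, map_smul, map_one]
  have hcnt : ∀ a, mult i a ≤ ((pr G G' (i a)).charpoly.roots.filter fun z => O.valuation z = 1).card := by
    intro a
    rw [hpr, Matrix.charpoly_reindex]
    exact hcount a
  have hnot : ¬ R.map (re K ι e).toLinearMap ≤ pairs K (Fin N) i 1 := by
    intro hle
    refine hS fun M hM => ?_
    have h1 := pairs_re e i 1 (hle ⟨M, hM, rfl⟩)
    have h2 : (re K ι e).symm ((re K ι e).toLinearMap M) = M := (re K ι e).symm_apply_apply M
    rwa [h2] at h1
  have hst' : ∀ M ∈ R.map (re K ι e).toLinearMap, ten (fun a => pr G G' (i a) ^ k) M ∈ R.map (re K ι e).toLinearMap := by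
    rintro _ ⟨M, hM, rfl⟩
    exact ⟨_, hst M hM, (hten M).symm⟩
  have hval : O.valuation ((c γ₀ : K) ^ m) < 1 := by
    rw [map_pow]
    exact pow_lt_one₀ zero_le hO hm.ne'
  obtain ⟨M', hM', hne, z, hz, hzM⟩ := hU (N := N) (by rw [hNn]; exact hN) G G' ((c γ₀ : K) ^ m) hw hdual O
    hval i hcnt (R.map (re K ι e).toLinearMap) (stab_re e hR) hnot k hst'
  obtain ⟨M, hM, rfl⟩ := hM'
  refine ⟨M, hM, fun h => hne (by rw [h, map_zero]), z, hz, ?_⟩
  have h1 : re K ι e (ten (fun a => act ρ m c (γ₀ ^ k) (i a)) M) = re K ι e (z • M) := by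
    rw [← hten, map_smul]
    exact hzM
  exact (re K ι e).injective h1

end Pool.Agent.Helper61.KT
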