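import Mathlib

/-!
# Generalised eigenvectors and multilinear maps
-/

open Module Polynomial

namespace Pool.Agent.Helper61.KT

section span

variable {L U : Type*} [Field L] [IsAlgClosed L] [AddCommGroup U] [Module L U]

/-- If `U` is spanned by elements of `N₀` and generalised eigenvectors of powers `F ^ M` whose
eigenvalues are not `θ ^ M` with `θ ^ N = Q`, then the generalised eigenvectors of `F ^ N` with
eigenvalue `Q` lie in `N₀`. -/
theorem mem_of_span {Fr : End L U} {N₀ : Submodule L U} (hN₀ : ∀ x ∈ N₀, Fr x ∈ N₀)
    {N : ℕ} {Q : L} (G : Set U) (hG : Submodule.span L G = ⊤)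
    (h : ∀ x ∈ G, x ∈ N₀ ∨ ∃ (M K : ℕ) (Λ : L), ((Fr ^ M - Λ • 1) ^ K) x = 0 ∧
      ∀ θ, θ ^ N = Q → θ ^ M ≠ Λ)
    {j : ℕ} {t : U} (ht : ((Fr ^ N - Q • 1) ^ j) t = 0) : t ∈ N₀ := by
  classical
  have hpol : ∀ (p : L[X]), ∀ x ∈ N₀, (aeval Fr p) x ∈ N₀ := by
    intro p x hx
    induction p using Polynomial.induction_on' with
    | add f g hf hg => rw [map_add, LinearMap.add_apply]; exact N₀.add_mem hf hg
    | monomial n c =>
      rw [aeval_monomial, End.mul_apply, Module.algebraMap_end_apply]
      refine N₀.smul_mem _ ?_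
      clear c
      induction n with
      | zero => simpa using hx
      | succ n ih => rw [pow_succ', End.mul_apply]; exact hN₀ _ ih
  let S : Submodule L U :=
    { carrier := {x | ∃ p : L[X], IsCoprime p ((X ^ N - C Q) ^ j) ∧ (aeval Fr p) x ∈ N₀}
      zero_mem' := ⟨1, isCoprime_one_left, by rw [map_zero]; exact N₀.zero_mem⟩
      add_mem' := by
        rintro x y ⟨p, hp, hpx⟩ ⟨p', hp', hpy⟩
        refine ⟨p * p', hp.mul_left hp', ?_⟩
        rw [map_add]
        refine N₀.add_mem ?_ ?_
        · rw [mul_comm, map_mul, End.mul_apply]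
          exact hpol p' _ hpx
        · rw [map_mul, End.mul_apply]
          exact hpol p _ hpy
      smul_mem' := by
        rintro c x ⟨p, hp, hpx⟩
        exact ⟨p, hp, by rw [map_smul]; exact N₀.smul_mem _ hpx⟩ }
  have hS : S = ⊤ := by
    rw [eq_top_iff, ← hG, Submodule.span_le]
    intro x hx
    rcases h x hx with h1 | ⟨M, K, Λ, h1, h2⟩
    · exact ⟨1, isCoprime_one_left, by simpa using h1⟩
    · refine ⟨(X ^ M - C Λ) ^ K, ?_, ?_⟩
      · apply IsCoprime.pow
        rw [Polynomial.isCoprime_iff_aeval_ne_zero_of_isAlgClosed L L]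
        intro θ
        by_contra hcon
        push Not at hcon
        obtain ⟨h3, h4⟩ := hcon
        rw [coe_aeval_eq_eval, eval_sub, eval_pow, eval_X, eval_C, sub_eq_zero] at h3 h4
        exact h2 θ h4 h3
      · have h3 : (aeval Fr ((X ^ M - C Λ) ^ K)) x = 0 := by
          rw [map_pow, map_sub, map_pow, aeval_X, aeval_C]
          exact h1
        rw [h3]
        exact N₀.zero_mem
  have ht' : t ∈ S := by rw [hS]; exact Submodule.mem_top
  obtain ⟨p, ⟨u, v, huv⟩, hpt⟩ := ht'
  have h1 := congrArg (fun P => (aeval Fr P) t) huv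
  simp only [map_add, map_mul, map_one, LinearMap.add_apply, End.mul_apply, End.one_apply] at h1
  have h2 : (aeval Fr ((X ^ N - C Q) ^ j)) t = 0 := by
    rw [map_pow, map_sub, map_pow, aeval_X, aeval_C]
    rw [← ht]
    rfl
  rw [h2, map_zero, add_zero] at h1
  rw [← h1]
  exact hpol u _ hpt

end span

section multi

variable {L U S : Type*} [Field L] [AddCommGroup U] [Module L U] [Fintype S] {V : S → Type*}
  [∀ s, AddCommGroup (V s)] [∀ s, Module L (V s)]

/-- A multilinear map on spanning sets. -/
theorem multi_mem (μ : MultilinearMap L V U) (G : ∀ s, Set (V s))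
    (hG : ∀ s, Submodule.span L (G s) = ⊤) (P : Submodule L U)
    (h : ∀ v, (∀ s, v s ∈ G s) → μ v ∈ P) (v : ∀ s, V s) : μ v ∈ P := by
  classical
  have key : ∀ (T : Finset S) (v : ∀ s, V s), (∀ s, s ∉ T → v s ∈ G s) → μ v ∈ P := by
    intro T
    induction T using Finset.induction_on with
    | empty => intro v hv; exact h v fun s => hv s (Finset.notMem_empty s)
    | insert a T ha ih =>
      intro v hv
      have h1 : ∀ x ∈ Submodule.span L (G a), μ (Function.update v a x) ∈ P := by
        intro x hx
        induction hx using Submodule.span_induction with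
        | mem x hx =>
          apply ih
          intro s hs
          by_cases hsa : s = a
          · subst hsa
            rw [Function.update_self]
            exact hx
          · rw [Function.update_of_ne hsa]
            exact hv s (by simp [hsa, hs])
        | zero => rw [MultilinearMap.map_update_zero]; exact P.zero_mem
        | add x y _ _ hx hy => rw [MultilinearMap.map_update_add]; exact P.add_mem hx hy
        | smul c x _ hx => rw [MultilinearMap.map_update_smul]; exact P.smul_mem c hx
      have h2 := h1 (v a) (by rw [hG]; exact Submodule.mem_top)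
      rwa [Function.update_eq_self] at h2
  exact key Finset.univ v fun s hs => absurd (Finset.mem_univ s) hs

/-- Products of generalised eigenvectors are generalised eigenvectors. -/
theorem multi_gen (μ : MultilinearMap L V U) (F : End L U) (f : ∀ s, End L (V s))
    (hF : ∀ v, F (μ v) = μ fun s => f s (v s)) (lam : S → L) (g : ∀ s, V s) (k : S → ℕ)
    (hg : ∀ s, ((f s - lam s • 1) ^ k s) (g s) = 0) :
    ∃ K : ℕ, ((F - (∏ s, lam s) • 1) ^ K) (μ g) = 0 := by
  classical
  suffices h : ∀ (n : ℕ) (g : ∀ s, V s) (k : S → ℕ), ∑ s, k s ≤ n →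
      (∀ s, ((f s - lam s • 1) ^ k s) (g s) = 0) → μ g ∈ F.maxGenEigenspace (∏ s, lam s) by
    have h1 := h _ g k le_rfl hg
    rw [End.mem_maxGenEigenspace] at h1
    exact h1
  intro n
  induction n with
  | zero =>
    intro g k hk hg
    by_cases hS : Nonempty S
    · obtain ⟨s⟩ := hS
      have h1 : k s = 0 := by
        have := Finset.single_le_sum (f := k) (fun _ _ => Nat.zero_le _) (Finset.mem_univ s)
        omega
      have h2 := hg s
      rw [h1, pow_zero, End.one_apply] at h2
      rw [MultilinearMap.map_coord_zero μ s h2]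
      exact Submodule.zero_mem _
    · rw [not_nonempty_iff] at hS
      rw [End.mem_maxGenEigenspace]
      refine ⟨1, ?_⟩
      rw [pow_one, LinearMap.sub_apply, hF, LinearMap.smul_apply, End.one_apply,
        Finset.univ_eq_empty, Finset.prod_empty, one_smul, sub_eq_zero]
      congr 1
      funext s
      exact (hS.false s).elim
  | succ n ih =>
    intro g k hk hg
    by_cases hz : ∃ s, k s = 0
    · obtain ⟨s, hs⟩ := hz
      have h2 := hg s
      rw [hs, pow_zero, End.one_apply] at h2
      rw [MultilinearMap.map_coord_zero μ s h2]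
      exact Submodule.zero_mem _
    push Not at hz
    by_cases hS : Nonempty S
    swap
    · exact ih g k (by
        rw [not_nonempty_iff] at hS
        rw [Finset.univ_eq_empty, Finset.sum_empty]
        exact Nat.zero_le _) hg
    set d : ∀ s, V s := fun s => (f s - lam s • 1) (g s) with hd
    have hFg : ∀ s, f s (g s) = d s + lam s • g s := by
      intro s
      simp only [hd, LinearMap.sub_apply, LinearMap.smul_apply, End.one_apply, sub_add_cancel]
    have h1 : F (μ g) = ∑ T : Finset S, μ (T.piecewise d fun s => lam s • g s) := by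
      rw [hF, ← MultilinearMap.map_add_univ]
      congr 1
      funext s
      exact hFg s
    have h2 : μ (fun s => lam s • g s) = (∏ s, lam s) • μ g := MultilinearMap.map_smul_univ μ lam g
    have h3 : (F - (∏ s, lam s) • 1) (μ g) =
        ∑ T ∈ (Finset.univ : Finset (Finset S)).erase ∅, μ (T.piecewise d fun s => lam s • g s) := by
      rw [LinearMap.sub_apply, h1, LinearMap.smul_apply, End.one_apply, ← h2,
        ← Finset.add_sum_erase _ _ (Finset.mem_univ (∅ : Finset S)), Finset.piecewise_empty,
        add_sub_cancel_left]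
    have h4 : (F - (∏ s, lam s) • 1) (μ g) ∈ F.maxGenEigenspace (∏ s, lam s) := by
      rw [h3]
      refine Submodule.sum_mem _ fun T hT => ?_
      have hT0 : T ≠ ∅ := Finset.ne_of_mem_erase hT
      obtain ⟨a, ha⟩ := Finset.nonempty_iff_ne_empty.2 hT0
      refine ih _ (fun s => if s ∈ T then k s - 1 else k s) ?_ ?_
      · have h5 : ∑ s, (if s ∈ T then k s - 1 else k s) < ∑ s, k s := by
          refine Finset.sum_lt_sum (fun s _ => ?_) ⟨a, Finset.mem_univ a, ?_⟩
          · split_ifs <;> omega
          · rw [if_pos ha]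
            have := hz a
            omega
        omega
      · intro s
        by_cases hs : s ∈ T
        · rw [if_pos hs, Finset.piecewise_eq_of_mem _ _ _ hs, hd]
          rw [← End.mul_apply, ← pow_succ]
          have := hz s
          rw [Nat.sub_add_cancel (by omega)]
          exact hg s
        · rw [if_neg hs, Finset.piecewise_eq_of_notMem _ _ _ hs, map_smul, hg s, smul_zero]
    rw [End.mem_maxGenEigenspace] at h4 ⊢
    obtain ⟨K, hK⟩ := h4
    exact ⟨K + 1, by rw [pow_succ, End.mul_apply]; exact hK⟩

end multi

end Pool.Agent.Helper61.KT
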