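import Pool.Agent.Helper61.KT.Wide
import Pool.Agent.Helper61.KT.Multi

/-!
# Generators of `V`
-/

open Module Polynomial

namespace Pool.Agent.Helper61.KT

open Pool.Agent.Helper73.KT Pool.Agent.Helper40.PC Pool.Agent.Helper33.KT

variable {k A B L V ι : Type} [Field k] [Finite k] [CommRing A] [Algebra k A]
    [CommRing B] [Algebra k B] [Field L]
    [AddCommGroup V] [Module L V] {r e : ℕ}

/-- eigenvectors in `N` -/
def gensN (H : CoverH2 k A B L V ι r e) (w : ℕ) : Set V :=
  {x | x ∈ H.N ∧ ∃ (η : L) (h : ℕ), 0 < h ∧ η ^ h = (Nat.card k : L) ^ (w * h) ∧ H.Fr x = η • x}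

/-- generalised eigenvectors in `W i` -/
def gensW [FiniteDimensional L V] (H : CoverH2 k A B L V ι r e) : Set V :=
  {x | ∃ (i : ι) (c : L), c ∈ eigs ((H.Fr ^ (ord k r * r ^ H.s i)).restrict (H.stable i)) ∧
    ∃ K : ℕ, ((H.Fr ^ (ord k r * r ^ H.s i) - c • 1) ^ K) x = 0}

theorem span_gens [CharZero L] [IsAlgClosed L] [FiniteDimensional L V]
    (H : CoverH2 k A B L V ι r e) {h w : ℕ} (hh : 0 < h)
    (hN : ∀ x ∈ H.N, (H.Fr ^ h) x = (Nat.card k : L) ^ (w * h) • x) :
    Submodule.span L (gensN H w ∪ gensW H) = ⊤ := by
  rw [eq_top_iff, ← H.span]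
  refine sup_le ?_ (iSup_le fun i => ?_)
  · intro x hx
    have h1 := End.IsSemisimple.iSup_eigenspace_eq_top H.N_semisimple
    have h2 : (⟨x, hx⟩ : H.N) ∈ ⨆ a, End.eigenspace (H.Fr.restrict H.N_stable) a := by
      rw [h1]; exact Submodule.mem_top
    have h3 : ∀ y : H.N, y ∈ (⨆ a, End.eigenspace (H.Fr.restrict H.N_stable) a) →
        (y : V) ∈ Submodule.span L (gensN H w ∪ gensW H) := by
      intro y hy
      induction hy using Submodule.iSup_induction' with
      | mem a y hy =>
        rw [End.mem_eigenspace_iff] at hy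
        have hy' : H.Fr (y : V) = a • (y : V) := congrArg Subtype.val hy
        by_cases hy0 : (y : V) = 0
        · rw [hy0]; exact Submodule.zero_mem _
        · refine Submodule.subset_span (Or.inl ⟨y.2, a, h, hh, ?_, hy'⟩)
          have h4 : ∀ j : ℕ, (H.Fr ^ j) (y : V) = a ^ j • (y : V) := by
            intro j
            induction j with
            | zero => simp
            | succ j ih => rw [pow_succ', End.mul_apply, ih, map_smul, hy', smul_smul, pow_succ]
          have h5 := hN y y.2
          rw [h4] at h5
          have h6 : (a ^ h - (Nat.card k : L) ^ (w * h)) • (y : V) = 0 := by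
            rw [sub_smul, h5, sub_self]
          rcases smul_eq_zero.1 h6 with h7 | h7
          · exact sub_eq_zero.1 h7
          · exact absurd h7 hy0
      | zero => exact Submodule.zero_mem _
      | add y z _ _ hy hz => exact Submodule.add_mem _ hy hz
    exact h3 _ h2
  · intro x hx
    set T : End L (H.W i) := (H.Fr ^ (ord k r * r ^ H.s i)).restrict (H.stable i) with hT
    have h1 := End.iSup_maxGenEigenspace_eq_top T
    have h2 : (⟨x, hx⟩ : H.W i) ∈ ⨆ a, T.maxGenEigenspace a := by
      rw [h1]; exact Submodule.mem_top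
    have h3 : ∀ y : H.W i, y ∈ (⨆ a, T.maxGenEigenspace a) →
        (y : V) ∈ Submodule.span L (gensN H w ∪ gensW H) := by
      intro y hy
      induction hy using Submodule.iSup_induction' with
      | mem c y hy =>
        by_cases hy0 : y = 0
        · rw [hy0]; exact Submodule.zero_mem _
        · have hc : c ∈ eigs T := by
            rw [mem_eigs]
            intro h4
            rw [h4, Submodule.mem_bot] at hy
            exact hy0 hy
          rw [End.mem_maxGenEigenspace] at hy
          obtain ⟨K, hK⟩ := hy
          refine Submodule.subset_span (Or.inr ⟨i, c, hc, K, ?_⟩)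
          have h4 : ∀ (K : ℕ) (y : H.W i),
              ((H.Fr ^ (ord k r * r ^ H.s i) - c • 1) ^ K) (y : V) =
                (((T - c • 1) ^ K) y : H.W i) := by
            intro K
            induction K with
            | zero => intro y; rfl
            | succ K ih =>
              intro y
              have h5 : (H.Fr ^ (ord k r * r ^ H.s i) - c • 1) (y : V) =
                  ((T - c • 1) y : H.W i) := rfl
              rw [pow_succ, End.mul_apply, h5, ih, pow_succ, End.mul_apply]
          rw [h4, hK]
          rfl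
      | zero => exact Submodule.zero_mem _
      | add y z _ _ hy hz => exact Submodule.add_mem _ hy hz
    exact h3 _ h2

/-- powers of operators and generalised eigenvectors -/
theorem gen_pow {L V : Type*} [Field L] [AddCommGroup V] [Module L V] {f : End L V} {c : L}
    {K : ℕ} {x : V} (h : ((f - c • 1) ^ K) x = 0) (n : ℕ) :
    ((f ^ n - c ^ n • 1) ^ K) x = 0 := by
  have hc : Commute f (c • 1 : End L V) := by
    rw [commute_iff_eq]
    ext y
    simp
  obtain ⟨g, hg⟩ : ∃ g : End L V, f ^ n - (c • 1 : End L V) ^ n = g * (f - c • 1) ∧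
      Commute g (f - c • 1) := by
    refine ⟨∑ i ∈ Finset.range n, f ^ i * (c • 1 : End L V) ^ (n - 1 - i), ?_, ?_⟩
    · exact (hc.geom_sum₂_mul n).symm
    · refine Commute.sum_left _ _ _ fun i _ => ?_
      refine Commute.mul_left ?_ ?_
      · exact (Commute.pow_left (Commute.refl f) i).sub_right (hc.pow_left i)
      · exact (hc.symm.pow_left _).sub_right ((Commute.refl _).pow_left _)
  have h1 : (c • 1 : End L V) ^ n = c ^ n • 1 := by rw [_root_.smul_pow, one_pow]
  rw [← h1, hg.1, hg.2.mul_pow, End.mul_apply, h, map_zero]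

end Pool.Agent.Helper61.KT
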