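import Pool.Agent.Helper35.KN.MeetK
import Pool.Agent.Helper73.KT.Defs

/-!
K'': the numbers of `w ^ (r ^ e) = f(x_1, …, x_m)` for `∑ 1 / a_k < 1 / b`.
-/

set_option autoImplicit false

open Pool.Agent.Helper79.KN Pool.Agent.Helper33.KN

namespace Pool.Agent.Helper61.KT

open Finset

/-- the number of the multiples in a short interval -/
theorem count_low {r e u A p : ℕ} (hr : r.Prime) (hA : 0 < A) (hu : 0 < u) (hun : u < r ^ e) :
    A * ((range (r ^ e)).filter fun t => 0 < t * u % r ^ e ∧ A * (t * u % r ^ e) ≤ p * r ^ e).card ≤ p * r ^ e := by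
  classical
  obtain ⟨j, u0, hu0, rfl⟩ := Nat.exists_eq_pow_mul_and_not_dvd hu.ne' r hr.one_lt.ne'
  have hrj : 0 < r ^ j := Nat.pow_pos hr.pos
  have hje : j < e := by
    by_contra h
    push Not at h
    have h1 : r ^ e ≤ r ^ j := Nat.pow_le_pow_right hr.pos h
    have h2 : 0 < u0 := Nat.pos_of_ne_zero (by rintro rfl; simp at hu0)
    nlinarith
  obtain ⟨f, rfl⟩ : ∃ f, e = f + j := ⟨e - j, by omega⟩
  have hf : 0 < f := by omega
  have hQ0 : 0 < r ^ f := Nat.pow_pos hr.pos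
  have hcop : Nat.Coprime (r ^ f) u0 := Nat.Coprime.pow_left _ ((Nat.Prime.coprime_iff_not_dvd hr).2 hu0)
  have hmod : ∀ t, t * (r ^ j * u0) % r ^ (f + j) = (t * u0 % r ^ f) * r ^ j := by
    intro t
    rw [show t * (r ^ j * u0) = t * u0 * r ^ j by ring, pow_add, Nat.mul_mod_mul_right]
  set S := (range (r ^ (f + j))).filter fun t => 0 < t * (r ^ j * u0) % r ^ (f + j) ∧
    A * (t * (r ^ j * u0) % r ^ (f + j)) ≤ p * r ^ (f + j) with hS
  have h1 : S.card ≤ r ^ j * (S.image fun t => t * u0 % r ^ f).card := by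
    refine Finset.card_le_mul_card_image S (r ^ j) fun b _ => ?_
    rw [← Finset.card_range (r ^ j)]
    refine Finset.card_le_card_of_injOn (fun t => t / r ^ f) ?_ ?_
    · intro t ht
      rw [Finset.mem_coe, Finset.mem_filter, hS, Finset.mem_filter, Finset.mem_range] at ht
      rw [Finset.mem_coe, Finset.mem_range]
      rw [Nat.div_lt_iff_lt_mul hQ0, mul_comm, ← pow_add]
      exact ht.1.1
    · intro t ht t' ht' htt
      rw [Finset.mem_coe, Finset.mem_filter] at ht ht'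
      have h2 : t * u0 ≡ t' * u0 [MOD r ^ f] := ht.2.trans ht'.2.symm
      have h3 : t ≡ t' [MOD r ^ f] := Nat.ModEq.cancel_right_of_coprime hcop h2
      have h4 := Nat.div_add_mod t (r ^ f)
      have h5 := Nat.div_add_mod t' (r ^ f)
      have h6 : t / r ^ f = t' / r ^ f := htt
      have h3' : t % r ^ f = t' % r ^ f := h3
      rw [h6, h3'] at h4
      rw [← h4]
      exact h5
  have h2 : (S.image fun t => t * u0 % r ^ f) ⊆ Finset.Ioc 0 (p * r ^ f / A) := by
    intro v hv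
    rw [Finset.mem_image] at hv
    obtain ⟨t, ht, rfl⟩ := hv
    rw [hS, Finset.mem_filter, hmod] at ht
    obtain ⟨-, h3, h4⟩ := ht
    rw [Finset.mem_Ioc]
    refine ⟨Nat.pos_of_mul_pos_right h3, ?_⟩
    rw [Nat.le_div_iff_mul_le hA]
    rw [← mul_assoc, pow_add, ← mul_assoc] at h4
    have := Nat.le_of_mul_le_mul_right h4 hrj
    rw [mul_comm]
    exact this
  have h3 := Finset.card_le_card h2
  rw [Nat.card_Ioc, Nat.sub_zero] at h3
  calc A * S.card ≤ A * (r ^ j * (p * r ^ f / A)) := Nat.mul_le_mul_left _ (h1.trans (Nat.mul_le_mul_left _ h3))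
    _ = r ^ j * (A * (p * r ^ f / A)) := by ring
    _ ≤ r ^ j * (p * r ^ f) := Nat.mul_le_mul_left _ (Nat.mul_div_le _ _)
    _ = p * r ^ (f + j) := by rw [pow_add]; ring

theorem count_high {r e u A p : ℕ} (hr : r.Prime) (hA : 0 < A) (hu : 0 < u) (hun : u < r ^ e) :
    A * ((range (r ^ e)).filter fun t => 0 < t * u % r ^ e ∧ A * (r ^ e - t * u % r ^ e) ≤ p * r ^ e).card ≤
      p * r ^ e := by
  classical
  refine le_trans (Nat.mul_le_mul_left _ (Finset.card_le_card ?_)) (count_low (u := r ^ e - u) (A := A) hr hA (by omega) (by omega))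
  intro t ht
  rw [Finset.mem_filter] at ht ⊢
  obtain ⟨h0, h1, h2⟩ := ht
  have hn : 0 < r ^ e := by omega
  have h3 : t * (r ^ e - u) % r ^ e = r ^ e - t * u % r ^ e := by
    have h4 : t * (r ^ e - u) + t * u = r ^ e * t := by
      rw [← mul_add, Nat.sub_add_cancel hun.le, mul_comm]
    have h5 := Nat.div_add_mod (t * u) (r ^ e)
    have h6 := Nat.mod_lt (t * u) hn
    have h7 : t * u / r ^ e < t := by
      rw [Nat.div_lt_iff_lt_mul hn]
      have ht0 : 0 < t := Nat.pos_of_ne_zero (by rintro rfl; simp at h1)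
      exact Nat.mul_lt_mul_of_pos_left hun ht0
    have h8 : t * (r ^ e - u) = (r ^ e - t * u % r ^ e) + r ^ e * (t - t * u / r ^ e - 1) := by
      obtain ⟨w, hw⟩ : ∃ w, t = t * u / r ^ e + 1 + w := ⟨t - t * u / r ^ e - 1, by omega⟩
      have h9 : t - t * u / r ^ e - 1 = w := by omega
      rw [h9]
      have h10 : r ^ e * t = r ^ e * (t * u / r ^ e) + r ^ e + r ^ e * w := by
        conv_lhs => rw [hw]
        ring
      omega
    rw [h8, Nat.add_mul_mod_self_left]
    exact Nat.mod_eq_of_lt (by omega)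
  rw [h3]
  have h4 := Nat.mod_lt (t * u) hn
  exact ⟨h0, by omega, h2⟩

/-- **the union bound** -/
theorem exists_unit {J : Type} [Fintype J] {r e A : ℕ} (hr : r.Prime) (he : 0 < e) (hA : A < r) (u p : J → ℕ)
    (b : J → Bool) (hu : ∀ j, 0 < u j) (hun : ∀ j, u j < r ^ e) (hp : ∑ j, p j < A) :
    ∃ t, Nat.Coprime t r ∧ ∀ j, if b j then p j * r ^ e < A * (r ^ e - t * u j % r ^ e)
      else p j * r ^ e < A * (t * u j % r ^ e) := by
  classical
  have hA0 : 0 < A := by omega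
  by_contra hc
  push Not at hc
  let Bad : J → Finset ℕ := fun j => if b j then
    (range (r ^ e)).filter fun t => 0 < t * u j % r ^ e ∧ A * (r ^ e - t * u j % r ^ e) ≤ p j * r ^ e
    else (range (r ^ e)).filter fun t => 0 < t * u j % r ^ e ∧ A * (t * u j % r ^ e) ≤ p j * r ^ e
  have hbad : ∀ j, A * (Bad j).card ≤ p j * r ^ e := by
    intro j
    by_cases hb : b j
    · simp only [Bad, hb, if_true]
      exact count_high hr hA0 (hu j) (hun j)
    · simp only [Bad, hb]
      exact count_low hr hA0 (hu j) (hun j)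
  have hcov : range (r ^ e) ⊆ ((range (r ^ e)).filter fun t => r ∣ t) ∪ Finset.univ.biUnion Bad := by
    intro t ht
    rw [Finset.mem_union]
    by_cases hrt : r ∣ t
    · exact Or.inl (Finset.mem_filter.2 ⟨ht, hrt⟩)
    right
    have hcop : Nat.Coprime t r := ((Nat.Prime.coprime_iff_not_dvd hr).2 hrt).symm
    obtain ⟨j, hj⟩ := hc t hcop
    rw [Finset.mem_biUnion]
    refine ⟨j, Finset.mem_univ _, ?_⟩
    have h0 : 0 < t * u j % r ^ e := by
      refine Nat.pos_of_ne_zero fun h => ?_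
      have h3 : r ^ e ∣ t * u j := Nat.dvd_of_mod_eq_zero h
      have h4 : r ^ e ∣ u j := (Nat.Coprime.pow_left e hcop.symm).dvd_of_dvd_mul_left h3
      have := Nat.le_of_dvd (hu j) h4
      have := hun j
      omega
    by_cases hb : b j
    · simp only [hb, if_true, not_lt] at hj
      simp only [Bad, hb, if_true]
      exact Finset.mem_filter.2 ⟨ht, h0, hj⟩
    · simp only [hb] at hj
      simp only [Bad, hb]
      exact Finset.mem_filter.2 ⟨ht, h0, by simpa using hj⟩
  have h3 := (Finset.card_le_card hcov).trans ((Finset.card_union_le _ _).trans (Nat.add_le_add_left Finset.card_biUnion_le _))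
  rw [Finset.card_range] at h3
  have h4 : A * ∑ j, (Bad j).card ≤ (A - 1) * r ^ e := by
    rw [Finset.mul_sum]
    refine (Finset.sum_le_sum fun j _ => hbad j).trans ?_
    rw [← Finset.sum_mul]
    exact Nat.mul_le_mul_right _ (by omega)
  have h6 := Pool.Agent.Helper35.KN.count_r hr he
  have h8 : 0 < r ^ e := Nat.pow_pos hr.pos
  set n := r ^ e
  set c := ((range n).filter fun t => r ∣ t).card
  set s := ∑ j, (Bad j).card
  -- `n ≤ c + s`, `A * s ≤ (A - 1) * n`, `r * c = n`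
  have h9 : A * n ≤ A * c + A * s := by rw [← mul_add]; exact Nat.mul_le_mul_left _ h3
  have h10 : (A - 1) * n + n = A * n := by
    rw [← Nat.succ_mul]
    congr 1
    omega
  have h11 : n ≤ A * c := by omega
  have h12 : r * c ≤ A * c := h6.le.trans h11
  have h13 : 0 < c := by
    rcases Nat.eq_zero_or_pos c with h | h
    · rw [h, mul_zero] at h6
      omega
    · exact h
  have h14 := Nat.le_of_mul_le_mul_right h12 h13
  omega

variable {m : ℕ} {a : Fin m → ℕ}

theorem pt_sum (a : Fin m → ℕ) (j0 : Fin m) {c d : ℕ} (hd : d < c) :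
    ∑ j, (Pool.Agent.Helper35.KN.pt j0 d j : ℚ) / a j ≤ c * ∑ k, (1 / a k : ℚ) := by
  have h1 : ∀ j, (Pool.Agent.Helper35.KN.pt j0 d j : ℚ) / a j = 1 / a j + if j = j0 then (d : ℚ) / a j else 0 := by
    intro j
    by_cases h : j = j0
    · subst h
      rw [if_pos rfl, Pool.Agent.Helper35.KN.pt, Function.update_self]
      push_cast
      rw [add_div]
    · rw [if_neg h, Pool.Agent.Helper35.KN.pt, Function.update_of_ne h, Nat.cast_one, add_zero]
  rw [Finset.sum_congr rfl fun j _ => h1 j, Finset.sum_add_distrib, Finset.sum_ite_eq' Finset.univ j0,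
    if_pos (Finset.mem_univ _)]
  have h2 : (1 / a j0 : ℚ) ≤ ∑ k, (1 / a k : ℚ) :=
    Finset.single_le_sum (f := fun k => (1 / a k : ℚ)) (fun k _ => by positivity) (Finset.mem_univ j0)
  have h3 : (d : ℚ) / a j0 ≤ d * ∑ k, (1 / a k : ℚ) := by
    rw [div_eq_mul_one_div]
    exact mul_le_mul_of_nonneg_left h2 (by positivity)
  have h4 : (d : ℚ) + 1 ≤ c := by exact_mod_cast hd
  have h5 : (0 : ℚ) ≤ ∑ k, (1 / a k : ℚ) := Finset.sum_nonneg fun k _ => by positivity
  nlinarith

theorem pt_mem (ha : ∀ j, 1 < a j) (j0 : Fin m) {c d : ℕ} (hd : d < c) (hc : (c : ℚ) * ∑ k, (1 / a k : ℚ) < 1)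
    (j : Fin m) : 0 < Pool.Agent.Helper35.KN.pt j0 d j ∧ Pool.Agent.Helper35.KN.pt j0 d j < a j := by
  by_cases h : j = j0
  · subst h
    rw [Pool.Agent.Helper35.KN.pt, Function.update_self]
    refine ⟨by omega, ?_⟩
    have h2 : (1 / a j : ℚ) ≤ ∑ k, (1 / a k : ℚ) :=
      Finset.single_le_sum (f := fun k => (1 / a k : ℚ)) (fun k _ => by positivity) (Finset.mem_univ j)
    have h3 : (c : ℚ) / a j < 1 := by
      rw [div_eq_mul_one_div]
      exact lt_of_le_of_lt (mul_le_mul_of_nonneg_left h2 (by positivity)) hc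
    have h4 : (0 : ℚ) < a j := by
      have := ha j
      positivity
    rw [div_lt_one h4] at h3
    have h5 : c < a j := by exact_mod_cast h3
    omega
  · rw [Pool.Agent.Helper35.KN.pt, Function.update_of_ne h]
    exact ⟨by omega, ha j⟩

theorem spec_zero_ge {c : ℕ} (hm : 0 < m) (ha : ∀ j, 1 < a j) {n s : ℕ}
    (h : (c : ℚ) * ∑ k, (1 / a k : ℚ) + (s : ℚ) / n < 1) : c ≤ spec a n s 0 := by
  let j0 : Fin m := ⟨0, hm⟩
  have h0 : (0 : ℚ) ≤ (s : ℚ) / n := by positivity
  have h2 : ((Finset.range c).image (Pool.Agent.Helper35.KN.pt j0)) ⊆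
      (Fintype.piFinset fun k => Finset.Ioo 0 (a k)).filter fun i =>
      ⌊∑ k, (i k : ℚ) / a k + (s : ℚ) / n⌋ = 0 := by
    intro i hi
    rw [Finset.mem_image] at hi
    obtain ⟨d, hd, rfl⟩ := hi
    rw [Finset.mem_range] at hd
    rw [Finset.mem_filter, Fintype.mem_piFinset]
    refine ⟨fun j => Finset.mem_Ioo.2 (pt_mem ha j0 hd (by linarith) j), ?_⟩
    have h3 := pt_sum a j0 hd
    have h4 : (0 : ℚ) ≤ ∑ j, (Pool.Agent.Helper35.KN.pt j0 d j : ℚ) / a j := Finset.sum_nonneg fun j _ => by positivity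
    rw [Int.floor_eq_zero_iff]
    exact ⟨by linarith, by linarith⟩
  calc c = ((Finset.range c).image (Pool.Agent.Helper35.KN.pt j0)).card := by
        rw [Finset.card_image_of_injective _ (Pool.Agent.Helper35.KN.pt_inj j0), Finset.card_range]
    _ ≤ _ := Finset.card_le_card h2

theorem spec_top_ge {c : ℕ} (hm : 0 < m) (ha : ∀ j, 1 < a j) {n s : ℕ} (hs : s < n)
    (h : (c : ℚ) * ∑ k, (1 / a k : ℚ) < (s : ℚ) / n) : c ≤ spec a n s m := by
  let j0 : Fin m := ⟨0, hm⟩
  have hn : (0 : ℚ) < n := by exact_mod_cast (by omega : 0 < n)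
  have h5 : (s : ℚ) / n < 1 := (div_lt_one hn).2 (by exact_mod_cast hs)
  have hmem : ∀ d < c, ∀ j, 0 < Pool.Agent.Helper35.KN.pt j0 d j ∧ Pool.Agent.Helper35.KN.pt j0 d j < a j :=
    fun d hd j => pt_mem ha j0 hd (by linarith) j
  have hinj : Set.InjOn (fun d j => a j - Pool.Agent.Helper35.KN.pt j0 d j) (Finset.range c : Set ℕ) := by
    intro d hd d' hd' hdd
    rw [Finset.mem_coe, Finset.mem_range] at hd hd'
    refine Pool.Agent.Helper35.KN.pt_inj j0 (funext fun j => ?_)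
    have h3 := congrFun hdd j
    have h4 := hmem d hd j
    have h5 := hmem d' hd' j
    simp only at h3
    omega
  have h2 : ((Finset.range c).image fun d j => a j - Pool.Agent.Helper35.KN.pt j0 d j) ⊆
      (Fintype.piFinset fun k => Finset.Ioo 0 (a k)).filter fun i =>
      ⌊∑ k, (i k : ℚ) / a k + (s : ℚ) / n⌋ = m := by
    intro i hi
    rw [Finset.mem_image] at hi
    obtain ⟨d, hd, rfl⟩ := hi
    rw [Finset.mem_range] at hd
    rw [Finset.mem_filter, Fintype.mem_piFinset]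
    refine ⟨fun j => Finset.mem_Ioo.2 (by have := hmem d hd j; omega), ?_⟩
    have h3 := pt_sum a j0 hd
    have h4 : (0 : ℚ) ≤ ∑ j, (Pool.Agent.Helper35.KN.pt j0 d j : ℚ) / a j := Finset.sum_nonneg fun j _ => by positivity
    have h6 : ∑ j, ((a j - Pool.Agent.Helper35.KN.pt j0 d j : ℕ) : ℚ) / a j =
        m - ∑ j, (Pool.Agent.Helper35.KN.pt j0 d j : ℚ) / a j := by
      rw [eq_sub_iff_add_eq, ← Finset.sum_add_distrib]
      have h7 : ∀ j, ((a j - Pool.Agent.Helper35.KN.pt j0 d j : ℕ) : ℚ) / a j +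
          (Pool.Agent.Helper35.KN.pt j0 d j : ℚ) / a j = 1 := by
        intro j
        have h8 := hmem d hd j
        have h9 : (a j : ℚ) ≠ 0 := by
          have : 0 < a j := by omega
          positivity
        rw [Nat.cast_sub h8.2.le, ← add_div, sub_add_cancel, div_self h9]
      rw [Finset.sum_congr rfl fun j _ => h7 j, Finset.sum_const, Finset.card_univ, Fintype.card_fin, nsmul_eq_mul,
        mul_one]
    rw [h6, Int.floor_eq_iff]
    push_cast
    exact ⟨by linarith, by linarith⟩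
  calc c = ((Finset.range c).image fun d j => a j - Pool.Agent.Helper35.KN.pt j0 d j).card := by
        rw [Finset.card_image_of_injOn hinj, Finset.card_range]
    _ ≤ _ := Finset.card_le_card h2

/-- any eigenspaces have as many holomorphic forms as we need at the same time -/
theorem meet_sum (m : ℕ) (a : Fin m → ℕ) (r e : ℕ) (ι : Type) [Fintype ι] (hr : r.Prime) (he : 0 < e)
    (hm : 0 < m) (ha : ∀ k, 1 < a k) (hA : ∏ k, a k < r) (hS : Fintype.card ι * ∑ k, (1 / a k : ℚ) < 1) :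
    Helper73.KT.IsMeet ι (X := {u : ℕ // 0 < u ∧ 2 * u < r ^ e}) (T := {t : ℕ // Nat.Coprime t r})
      (fun t u q => spec a (r ^ e) (t.1 * u.1 % r ^ e) q) m := by
  classical
  intro i
  set A : ℕ := ∏ k, a k with hAdef
  have hA0 : 0 < A := Finset.prod_pos fun k _ => by have := ha k; omega
  have hAq : (0 : ℚ) < A := by exact_mod_cast hA0
  -- `P = A * ∑ 1 / a_k`
  let P : ℕ := ∑ k, A / a k
  have hP : (P : ℚ) = A * ∑ k, (1 / a k : ℚ) := by
    simp only [P]
    rw [Nat.cast_sum, Finset.mul_sum]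
    refine Finset.sum_congr rfl fun k _ => ?_
    have h1 : a k ∣ A := Finset.dvd_prod_of_mem a (Finset.mem_univ k)
    rw [Nat.cast_div h1 (by have := ha k; positivity)]
    ring
  let c : {l // l ∈ Finset.univ.image i} → ℕ := fun l => (Finset.univ.filter fun a => i a = l.1).card
  have hc : ∑ l, c l = Fintype.card ι := by
    have h1 := Finset.card_eq_sum_card_image i (Finset.univ : Finset ι)
    rw [Finset.card_univ] at h1
    rw [h1]
    exact Finset.sum_coe_sort (Finset.univ.image i) fun l => (Finset.univ.filter fun a => i a = l).card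
  have hsum : ∑ l, c l * P < A := by
    rw [← Finset.sum_mul, hc]
    have h1 : ((Fintype.card ι * P : ℕ) : ℚ) < A := by
      push_cast
      rw [hP]
      calc (Fintype.card ι : ℚ) * (A * ∑ k, (1 / a k : ℚ)) = A * (Fintype.card ι * ∑ k, (1 / a k : ℚ)) := by ring
        _ < A * 1 := by
          exact mul_lt_mul_of_pos_left hS hAq
        _ = A := mul_one _
    exact_mod_cast h1
  obtain ⟨t, ht, h⟩ := exists_unit (J := {l // l ∈ Finset.univ.image i}) hr he hA (fun l => l.1.1.1) (fun l => c l * P) (fun l => l.1.2)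
    (fun l => l.1.1.2.1) (fun l => by have := l.1.1.2.2; omega) hsum
  refine ⟨⟨t, ht⟩, fun l => ?_⟩
  rcases (Finset.univ.filter fun a => i a = l).eq_empty_or_nonempty with h1 | ⟨b, hb⟩
  · rw [h1, Finset.card_empty]
    exact Nat.zero_le _
  rw [Finset.mem_filter] at hb
  have hl : l ∈ Finset.univ.image i := Finset.mem_image.2 ⟨b, Finset.mem_univ _, hb.2⟩
  have h1 := h ⟨l, hl⟩
  have hn : 0 < r ^ e := Nat.pow_pos hr.pos
  have hnq : (0 : ℚ) < (r ^ e : ℕ) := by exact_mod_cast hn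
  have hlt := Nat.mod_lt (t * l.1.1) hn
  have hcl : c ⟨l, hl⟩ = (Finset.univ.filter fun a => i a = l).card := rfl
  rw [← hcl]
  unfold hzero
  by_cases hb' : l.2
  · rw [if_pos hb']
    rw [if_pos hb'] at h1
    refine spec_zero_ge hm ha ?_
    have h2 : ((c ⟨l, hl⟩ * P * r ^ e : ℕ) : ℚ) < ((A * (r ^ e - t * l.1.1 % r ^ e) : ℕ) : ℚ) := by exact_mod_cast h1
    rw [Nat.cast_mul, Nat.cast_mul, hP, Nat.cast_mul A, Nat.cast_sub hlt.le] at h2
    have h3 : (c ⟨l, hl⟩ : ℚ) * (∑ k, (1 / a k : ℚ)) * (r ^ e : ℕ) < (r ^ e : ℕ) - (t * l.1.1 % r ^ e : ℕ) := by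
      have h4 : (A : ℚ) * ((c ⟨l, hl⟩ : ℚ) * (∑ k, (1 / a k : ℚ)) * (r ^ e : ℕ)) <
          A * ((r ^ e : ℕ) - (t * l.1.1 % r ^ e : ℕ)) := by
        calc _ = (c ⟨l, hl⟩ : ℚ) * (A * ∑ k, (1 / a k : ℚ)) * (r ^ e : ℕ) := by ring
          _ < _ := h2
      exact lt_of_mul_lt_mul_left h4 hAq.le
    have h5 : (c ⟨l, hl⟩ : ℚ) * ∑ k, (1 / a k : ℚ) < ((r ^ e : ℕ) - (t * l.1.1 % r ^ e : ℕ)) / (r ^ e : ℕ) :=
      (lt_div_iff₀ hnq).2 h3
    rw [sub_div, div_self hnq.ne'] at h5
    exact lt_sub_iff_add_lt.1 h5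
  · rw [if_neg hb']
    rw [if_neg hb'] at h1
    refine spec_top_ge hm ha hlt ?_
    have h2 : ((c ⟨l, hl⟩ * P * r ^ e : ℕ) : ℚ) < ((A * (t * l.1.1 % r ^ e) : ℕ) : ℚ) := by exact_mod_cast h1
    rw [Nat.cast_mul, Nat.cast_mul, hP, Nat.cast_mul A] at h2
    rw [lt_div_iff₀ hnq]
    have h4 : (A : ℚ) * ((c ⟨l, hl⟩ : ℚ) * (∑ k, (1 / a k : ℚ)) * (r ^ e : ℕ)) < A * (t * l.1.1 % r ^ e : ℕ) := by
      calc _ = (c ⟨l, hl⟩ : ℚ) * (A * ∑ k, (1 / a k : ℚ)) * (r ^ e : ℕ) := by ring
        _ < _ := h2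
    exact lt_of_mul_lt_mul_left h4 hAq.le

/-- `b ^ 2 < N` if `b ∑ 1 / a_k < 1` -/
theorem sq_lt {m : ℕ} (hm : 1 < m) (a : Fin m → ℕ) (ha : ∀ k, 1 < a k) {b : ℕ} (h : b * ∑ k, (1 / a k : ℚ) < 1) :
    b ^ 2 < ∏ k, (a k - 1) := by
  classical
  let k0 : Fin m := ⟨0, by omega⟩
  let k1 : Fin m := ⟨1, hm⟩
  have hne : k0 ≠ k1 := by
    intro h
    have := congrArg Fin.val h
    simp [k0, k1] at this
  have h1 : (a k0 - 1) * (a k1 - 1) ≤ ∏ k, (a k - 1) := by
    rw [← Finset.prod_pair (f := fun k => a k - 1) hne]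
    exact Finset.prod_le_prod_of_subset_of_one_le' (Finset.subset_univ _) fun k _ _ => by have := ha k; omega
  have h2 : (1 / a k0 : ℚ) + 1 / a k1 ≤ ∑ k, (1 / a k : ℚ) := by
    rw [← Finset.sum_pair (f := fun k => (1 / a k : ℚ)) hne]
    exact Finset.sum_le_sum_of_subset_of_nonneg (Finset.subset_univ _) fun k _ _ => by positivity
  have h3 : (b : ℚ) * (1 / a k0 + 1 / a k1) < 1 := lt_of_le_of_lt (mul_le_mul_of_nonneg_left h2 (by positivity)) h
  have ha0 := ha k0
  have ha1 := ha k1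
  have hq0 : (0 : ℚ) < a k0 := by positivity
  have hq1 : (0 : ℚ) < a k1 := by positivity
  have h4 : (b : ℚ) * (a k0 + a k1) < a k0 * a k1 := by
    have h5 : (b : ℚ) * (1 / a k0 + 1 / a k1) * (a k0 * a k1) < 1 * (a k0 * a k1) :=
      mul_lt_mul_of_pos_right h3 (by positivity)
    have h6 : (b : ℚ) * (1 / a k0 + 1 / a k1) * (a k0 * a k1) = b * (a k0 + a k1) := by
      field_simp
      ring
    rw [h6, one_mul] at h5
    exact h5
  have h5 : b * (a k0 + a k1) < a k0 * a k1 := by exact_mod_cast h4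
  refine lt_of_lt_of_le ?_ h1
  generalize a k0 = x at *
  generalize a k1 = y at *
  have hx : b < x := by
    by_contra hc
    push Not at hc
    have : x * y ≤ b * (x + y) := by nlinarith
    omega
  have hy : b < y := by
    by_contra hc
    push Not at hc
    have : x * y ≤ b * (x + y) := by nlinarith
    omega
  obtain ⟨u, rfl⟩ := Nat.exists_eq_add_of_lt hx
  obtain ⟨v, rfl⟩ := Nat.exists_eq_add_of_lt hy
  rcases Nat.eq_zero_or_pos b with rfl | hb
  · rw [zero_pow (by norm_num)]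
    exact Nat.mul_pos (by omega) (by omega)
  · have h6 : (u + 1) * (v + 1) ≤ (b + u + 1 - 1) * (b + v + 1 - 1) := Nat.mul_le_mul (by omega) (by omega)
    refine lt_of_lt_of_le ?_ h6
    nlinarith

end Pool.Agent.Helper61.KT
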