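import Pool.Agent.Helper61.KT.Gens
import Pool.Agent.Helper33.KT.BoundSet

/-!
# Products of towers
-/

open Module Polynomial

namespace Pool.Agent.Helper61.KT

open Pool.Agent.Helper73.KT Pool.Agent.Helper40.PC Pool.Agent.Helper33.KT

section single

variable {k A B L V ι : Type} [Field k] [Finite k] [CommRing A] [Algebra k A]
    [Algebra.FiniteType k A] [CommRing B] [Algebra k B] [Algebra.FiniteType k B] [Field L]
    [CharZero L] [IsAlgClosed L] [AddCommGroup V] [Module L V] [FiniteDimensional L V]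

/-- The properties of the generators which are used. -/
theorem typ {J : Type} [Fintype J] (a : J → ℂ) (ha : ∀ i, IsIntegral ℤ (a i))
    (g : J → ℤ[X])
    (points : ∀ (n : ℕ), 0 < n → ∀ (K : Type) [Field K] [Fintype K] [Algebra k K],
      finrank k K = n → (Nat.card (A →ₐ[k] K) : ℂ) - Fintype.card K * Nat.card (B →ₐ[k] K) =
        ∑ i, ((g i).eval (Fintype.card K : ℤ) : ℤ) * a i ^ n)
    {r e D : ℕ} [Fact r.Prime] (hr : (r : k) ≠ 0) (hD : D < r)
    (Φ : integralClosure ℤ ℂ →+* AlgebraicClosure (ZMod r))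
    (H : CoverH2 k A B L V ι r e)
    (dim : ∀ i, finrank L (H.W i) + Multiset.card (H.low i) ≤ D)
    {κ : Type} [Field κ] [CharP κ r] (ψ : integralClosure ℤ L →+* κ)
    (φ : AlgebraicClosure (ZMod r) →+* κ) {w : ℕ} {x : V} (hx : x ∈ gensN H w ∪ gensW H) :
    ∃ E₀ : ℕ, ∀ E, E₀ ≤ E → ∃ (lam α ρ : L) (K b : ℕ) (X : Finset L),
      ((H.Fr ^ (ord k r * r ^ E) - lam • 1) ^ K) x = 0 ∧
      lam = α * (((Nat.card k : L) ^ b) ^ (ord k r * r ^ E) * ρ) ∧
      (∃ h, 0 < h ∧ ρ ^ h = 1) ∧ IsIntegral ℤ α ∧ X.card ≤ D + 1 ∧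
      (∀ M : integralClosure ℤ L →+* L, (∀ y : L, y ^ r ^ e = 1 → res M y = y) →
        res M α ≠ 0 → res M α ∈ X) ∧
      (res ψ α ≠ 0 → ∃ u : Option {i // (g i).eval 1 ≠ 0}, (x ∉ H.N → u ≠ none) ∧
        res ψ α = φ (u.elim 1 fun i => Φ ⟨a i, ha i⟩) ^ (ord k r * r ^ E)) := by
  classical
  by_cases hxN : x ∈ gensN H w
  · obtain ⟨hxN', η, h, hh, hη, hFr⟩ := hxN
    refine ⟨0, fun E _ => ⟨η ^ (ord k r * r ^ E), 1,
      (η / (Nat.card k : L) ^ w) ^ (ord k r * r ^ E), 1, w, {1}, ?_, ?_, ⟨h, hh, ?_⟩,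
      isIntegral_one, ?_, ?_, ?_⟩⟩
    · have h4 : ∀ j : ℕ, (H.Fr ^ j) x = η ^ j • x := by
        intro j
        induction j with
        | zero => simp
        | succ j ih => rw [pow_succ', End.mul_apply, ih, map_smul, hFr, smul_smul, pow_succ]
      rw [pow_one, LinearMap.sub_apply, h4, LinearMap.smul_apply, End.one_apply, sub_self]
    · rw [one_mul, ← mul_pow, mul_div_cancel₀]
      exact pow_ne_zero _ (Nat.cast_ne_zero.2 (Nat.card_pos).ne')
    · rw [← pow_mul, mul_comm _ h, pow_mul, div_pow, hη, ← pow_mul,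
        div_self (pow_ne_zero _ (Nat.cast_ne_zero.2 (Nat.card_pos).ne')), one_pow]
    · rw [Finset.card_singleton]; omega
    · intro M _ _
      rw [Finset.mem_singleton]
      simpa using res_natCast M 1
    · intro _
      refine ⟨none, fun h5 => absurd hxN' h5, ?_⟩
      have h6 : res ψ (1 : L) = 1 := by simpa using res_natCast ψ 1
      rw [h6, Option.elim_none, map_one, one_pow]
  · obtain ⟨i, c, hc, K, hK⟩ := hx.resolve_left hxN
    refine ⟨H.s i, fun E hE => ?_⟩
    set d : ℕ := r ^ (E - H.s i) with hd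
    have hM : ord k r * r ^ E = ord k r * r ^ H.s i * d := by
      rw [hd, mul_assoc, ← pow_add, Nat.add_sub_cancel' hE]
    have hcint : IsIntegral ℤ c := eigs_integral H.integral (H.stable i) c hc
    refine ⟨c ^ d, c ^ d, 1, K, 0, (eigs ((H.Fr ^ (ord k r * r ^ H.s i)).restrict
      (H.stable i) : End L (H.W i)) ∪ (H.low i).toFinset).image (· ^ d), ?_, ?_,
      ⟨1, one_pos, one_pow 1⟩, hcint.pow d, ?_, ?_, ?_⟩
    · rw [hM, pow_mul]
      exact gen_pow hK d
    · rw [pow_zero, one_pow, mul_one, mul_one]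
    · calc _ ≤ (eigs ((H.Fr ^ (ord k r * r ^ H.s i)).restrict
            (H.stable i) : End L (H.W i)) ∪ (H.low i).toFinset).card := Finset.card_image_le
        _ ≤ _ := Finset.card_union_le _ _
        _ ≤ finrank L (H.W i) + Multiset.card (H.low i) :=
            Nat.add_le_add (Pool.Agent.Helper33.KT.card_eigs_le _) (Multiset.toFinset_card_le _)
        _ ≤ D + 1 := (dim i).trans (Nat.le_succ D)
    · intro M hfix hne
      rw [res_pow M hcint] at hne ⊢
      refine Finset.mem_image_of_mem _ ?_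
      have h1 := conj_mem (eigs_integral H.integral (H.stable i)) (H.low i) (H.low_integral i) M
        (fun j hj => fix_adjoin M hfix (trace_mem hr H i j hj)) hc (by
          intro h2
          rw [h2, zero_pow (pow_pos (Fact.out : r.Prime).pos _).ne'] at hne
          exact hne rfl)
      rcases h1 with h2 | h2
      · exact Finset.mem_union_left _ h2
      · exact Finset.mem_union_right _ (Multiset.mem_toFinset.2 h2)
    · intro hne
      rw [res_pow ψ hcint] at hne ⊢
      have hne' : res ψ c ≠ 0 := by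
        intro h2
        rw [h2, zero_pow (pow_pos (Fact.out : r.Prime).pos _).ne'] at hne
        exact hne rfl
      obtain ⟨z, hz0, hz⟩ := residual_wide hr (fun u => Φ ⟨a u, ha u⟩ ^ ord k r)
        (fun u => (((g u).eval 1 : ℤ) : AlgebraicClosure (ZMod r)))
        (fun j hj K _ _ _ hK => points_mod_wide a ha g points hr Φ j hj K hK) H i
        ((dim i).trans_lt hD) ψ φ c hc hne'
      refine ⟨some ⟨z, fun h => hz0 (by rw [h, Int.cast_zero])⟩, fun _ => by simp, ?_⟩
      have h3 : ∀ y : AlgebraicClosure (ZMod r), res ψ c = φ (y ^ ord k r) ^ r ^ H.s i →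
          res ψ c ^ d = φ y ^ (ord k r * r ^ E) := by
        intro y hy
        rw [hy, map_pow, hM, ← pow_mul, ← pow_mul, mul_assoc]
      exact h3 _ hz

end single

variable {k L S : Type} [Field k] [Finite k] [Fintype S] {A B : S → Type}
  [∀ s, CommRing (A s)] [∀ s, Algebra k (A s)] [∀ s, Algebra.FiniteType k (A s)]
  [∀ s, CommRing (B s)] [∀ s, Algebra k (B s)] [∀ s, Algebra.FiniteType k (B s)]
  [Field L] [CharZero L] [IsAlgClosed L] {V ι : S → Type} [∀ s, AddCommGroup (V s)]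
  [∀ s, Module L (V s)] [∀ s, FiniteDimensional L (V s)]

theorem prod_of_hom {J : S → Type} [∀ s, Fintype (J s)] (a : ∀ s, J s → ℂ)
    (ha : ∀ s i, IsIntegral ℤ (a s i)) (g : ∀ s, J s → ℤ[X])
    (points : ∀ s, ∀ (n : ℕ), 0 < n → ∀ (K : Type) [Field K] [Fintype K] [Algebra k K],
      finrank k K = n →
        (Nat.card (A s →ₐ[k] K) : ℂ) - Fintype.card K * Nat.card (B s →ₐ[k] K) =
          ∑ i, ((g s i).eval (Fintype.card K : ℤ) : ℤ) * a s i ^ n)
    {r e D : ℕ} [Fact r.Prime] (hr : (r : k) ≠ 0) (hD : D < r)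
    (Φ : integralClosure ℤ ℂ →+* AlgebraicClosure (ZMod r))
    (h1 : ∀ u : (∀ s, Option {i : J s // (g s i).eval 1 ≠ 0}), (∃ s, u s ≠ none) → ∀ E,
      (∏ s, (u s).elim 1 fun i => Φ ⟨a s i, ha s i⟩) ^
        ((2 * (D + 1) ^ Fintype.card S).factorial * (ord k r * r ^ E)) ≠ 1)
    (H : ∀ s, CoverH2 k (A s) (B s) L (V s) (ι s) r e)
    (dim : ∀ s i, finrank L ((H s).W i) + Multiset.card ((H s).low i) ≤ D)
    (w : S → ℕ) (hN : ∀ s, ∃ h, 0 < h ∧
      ∀ x ∈ (H s).N, ((H s).Fr ^ h) x = (Nat.card k : L) ^ (w s * h) • x)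
    {U : Type} [AddCommGroup U] [Module L U] (Fr : End L U) (μ : MultilinearMap L V U)
    (hμ : ∀ v, Fr (μ v) = μ fun s => (H s).Fr (v s))
    (hspan : Submodule.span L (Set.range μ) = ⊤)
    {N w₀ j : ℕ} (hN0 : 0 < N) {t : U}
    (ht : ((Fr ^ N - (Nat.card k : L) ^ (w₀ * N) • 1) ^ j) t = 0) :
    t ∈ Submodule.span L (μ '' {v | ∀ s, v s ∈ (H s).N}) := by
  classical
  have hrp : r.Prime := Fact.out
  have hord : 0 < ord k r := ord_pos hr
  have hq : (Nat.card k : L) ≠ 0 := Nat.cast_ne_zero.2 (Nat.card_pos).ne'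
  -- a residue field of characteristic `r`
  obtain ⟨κ, _, _, _, ψ, -⟩ := exists_res_closed (L := L) (r := r)
    (x := (1 : integralClosure ℤ L)) (by
      intro N h
      apply not_integral_inv (L := L) hrp
      simpa using h)
  let : Algebra (ZMod r) κ := ZMod.algebra κ r
  let φ₀ : AlgebraicClosure (ZMod r) →ₐ[ZMod r] κ := IsAlgClosed.lift
  let φ : AlgebraicClosure (ZMod r) →+* κ := φ₀.toRingHom
  have hφ : Function.Injective φ := φ.injective
  refine mem_of_span (Fr := Fr) ?_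
    (μ '' {v | ∀ s, v s ∈ gensN (H s) (w s) ∪ gensW (H s)}) ?_ ?_ ht
  · intro x hx
    induction hx using Submodule.span_induction with
    | mem x hx =>
      obtain ⟨v, hv, rfl⟩ := hx
      rw [hμ]
      exact Submodule.subset_span ⟨_, fun s => (H s).N_stable _ (hv s), rfl⟩
    | zero => rw [map_zero]; exact Submodule.zero_mem _
    | add x y _ _ hx hy => rw [map_add]; exact Submodule.add_mem _ hx hy
    | smul c x _ hx => rw [map_smul]; exact Submodule.smul_mem _ c hx
  · rw [eq_top_iff, ← hspan, Submodule.span_le]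
    rintro _ ⟨v, rfl⟩
    refine multi_mem μ (fun s => gensN (H s) (w s) ∪ gensW (H s)) (fun s => ?_)
      (Submodule.span L (μ '' {v | ∀ s, v s ∈ gensN (H s) (w s) ∪ gensW (H s)}))
      (fun v hv => Submodule.subset_span ⟨v, hv, rfl⟩) v
    obtain ⟨h, hh, hNs⟩ := hN s
    exact span_gens (H s) hh hNs
  rintro _ ⟨v, hv, rfl⟩
  by_cases hall : ∀ s, v s ∈ (H s).N
  · exact Or.inl (Submodule.subset_span ⟨v, hall, rfl⟩)
  right
  push Not at hall
  obtain ⟨s₀, hs₀⟩ := hall
  choose E₀ hE₀ using fun s => typ (a s) (ha s) (g s) (points s) hr hD Φ (H s) (dim s) ψ φ (hv s)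
  set E : ℕ := ∑ s, E₀ s with hE
  choose lam α ρ K b X hgen hlam hρ hαint hXcard hXmem hres using fun s =>
    hE₀ s E (Finset.single_le_sum (f := E₀) (fun _ _ => Nat.zero_le _) (Finset.mem_univ s))
  set M : ℕ := ord k r * r ^ E with hM
  have hFM : ∀ (n : ℕ) v, (Fr ^ n) (μ v) = μ fun s => ((H s).Fr ^ n) (v s) := by
    intro n
    induction n with
    | zero => intro v; rfl
    | succ n ih =>
      intro v
      rw [pow_succ', End.mul_apply, ih, hμ]
      congr 1
      funext s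
      rw [pow_succ', End.mul_apply]
  obtain ⟨K', hK'⟩ := multi_gen μ (Fr ^ M) (fun s => (H s).Fr ^ M) (hFM M) lam v K hgen
  refine ⟨M, K', ∏ s, lam s, hK', ?_⟩
  intro θ hθN hθM
  -- the root of unity
  set α₀ : L := ∏ s, α s with hα₀
  set ρ₀ : L := ∏ s, ρ s with hρ₀
  set b₀ : ℕ := ∑ s, b s with hb₀
  have hprod : ∏ s, lam s = α₀ * (((Nat.card k : L) ^ b₀) ^ M * ρ₀) := by
    rw [hα₀, hρ₀, hb₀, Finset.prod_congr rfl fun s _ => hlam s, Finset.prod_mul_distrib,
      Finset.prod_mul_distrib, Finset.prod_pow, Finset.prod_pow_eq_pow_sum]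
  obtain ⟨hρh, hρpos, hρ1⟩ : ∃ h, 0 < h ∧ ρ₀ ^ h = 1 := by
    choose h hh hρh using hρ
    refine ⟨∏ s, h s, Finset.prod_pos fun s _ => hh s, ?_⟩
    rw [hρ₀, ← Finset.prod_pow]
    refine Finset.prod_eq_one fun s _ => ?_
    obtain ⟨d, hd⟩ := Finset.dvd_prod_of_mem h (Finset.mem_univ s)
    rw [hd, pow_mul, hρh, one_pow]
  have hρ0 : ρ₀ ≠ 0 := by
    intro h
    rw [h, zero_pow hρpos.ne'] at hρ1
    exact zero_ne_one hρ1
  have hθ0 : θ / (Nat.card k : L) ^ w₀ ≠ 0 := by
    intro h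
    rw [div_eq_zero_iff] at h
    rcases h with h | h
    · rw [h, zero_pow hN0.ne'] at hθN
      exact pow_ne_zero _ hq hθN.symm
    · exact pow_ne_zero _ hq h
  set z : L := (θ / (Nat.card k : L) ^ w₀) ^ M / ρ₀ with hz
  have hc : ((Nat.card k : L) ^ b₀) ^ M * α₀ = (((Nat.card k ^ w₀) ^ M : ℕ) : L) * z := by
    have h2 : θ ^ M = α₀ * (((Nat.card k : L) ^ b₀) ^ M * ρ₀) := by rw [hθM, hprod]
    rw [hz, Nat.cast_pow, Nat.cast_pow, mul_div_assoc', ← mul_pow,
      mul_div_cancel₀ _ (pow_ne_zero _ hq), h2]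
    field_simp
  have hzfin : ∃ n, 0 < n ∧ z ^ n = 1 := by
    refine ⟨N * hρh, Nat.mul_pos hN0 hρpos, ?_⟩
    rw [hz, div_pow]
    have h2 : ρ₀ ^ (N * hρh) = 1 := by rw [mul_comm, pow_mul, hρ1, one_pow]
    have h3 : ((θ / (Nat.card k : L) ^ w₀) ^ M) ^ (N * hρh) = 1 := by
      rw [← pow_mul, show M * (N * hρh) = N * (M * hρh) by ring, pow_mul, div_pow, hθN,
        ← pow_mul, div_self (pow_ne_zero _ hq), one_pow]
    rw [h2, h3, div_one]
  obtain ⟨n', hn'pos, hn'⟩ := hzfin
  have hzord : orderOf z ≠ 0 :=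
    (orderOf_pos_iff.2 (isOfFinOrder_iff_pow_eq_one.2 ⟨n', hn'pos, hn'⟩)).ne'
  have hzint : IsIntegral ℤ z := by
    have h2 : IsIntegral ℤ (z ^ n') := by rw [hn']; exact isIntegral_one
    exact h2.of_pow hn'pos
  have hα₀int : IsIntegral ℤ α₀ := IsIntegral.prod _ fun s _ => hαint s
  obtain ⟨n, s', hn0, hn, hns⟩ := exists_split hrp hzord
  have hresprod : ∀ {κ' : Type} [Field κ'] (M' : integralClosure ℤ L →+* κ'),
      res M' α₀ = ∏ s, res M' (α s) := by
    intro κ' _ M'
    rw [res_eq M' hα₀int]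
    have h2 : (⟨α₀, hα₀int⟩ : integralClosure ℤ L) = ∏ s, ⟨α s, hαint s⟩ := by
      apply Subtype.ext
      simp [hα₀]
    rw [h2, map_prod]
    exact Finset.prod_congr rfl fun s _ => (res_eq M' (hαint s)).symm
  have hqint : IsIntegral ℤ (((Nat.card k : L) ^ b₀) ^ M) := (((int_nat _).pow _).pow _)
  -- the bound for the order
  have htot : n.totient ≤ (D + 1) ^ Fintype.card S := by
    let Y : Finset L := (Fintype.piFinset X).image
      fun f => ((Nat.card k : L) ^ b₀) ^ M * ∏ s, f s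
    have h2 : n.totient ≤ Y.card := by
      refine phi_le_set (e := e) Y
        (pow_ne_zero M (pow_ne_zero w₀ (Nat.card_pos (α := k)).ne')) hc ?_ hn hns
      intro M' hfix
      have h3 : res M' (((Nat.card k : L) ^ b₀) ^ M * α₀) ≠ 0 := by
        rw [hc, res_mul M' (int_nat _) hzint, res_natCast]
        refine mul_ne_zero (Nat.cast_ne_zero.2
          (pow_ne_zero M (pow_ne_zero w₀ (Nat.card_pos (α := k)).ne'))) ?_
        intro h4
        have h5 : res M' z ^ n' = 1 := by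
          rw [← res_pow M' hzint, hn']
          simpa using res_natCast M' 1
        rw [h4, zero_pow hn'pos.ne'] at h5
        exact zero_ne_one h5
      rw [res_mul M' hqint hα₀int] at h3 ⊢
      have h4 : res M' (((Nat.card k : L) ^ b₀) ^ M) = ((Nat.card k : L) ^ b₀) ^ M := by
        have h5 := res_natCast M' ((Nat.card k ^ b₀) ^ M)
        push_cast at h5
        exact h5
      have h5 : ∏ s, res M' (α s) ≠ 0 := by
        rw [← hresprod]
        exact right_ne_zero_of_mul h3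
      rw [Finset.prod_ne_zero_iff] at h5
      rw [h4, hresprod]
      refine Finset.mem_image.2 ⟨fun s => res M' (α s), ?_, rfl⟩
      rw [Fintype.mem_piFinset]
      exact fun s => hXmem s M' hfix (h5 s (Finset.mem_univ s))
    calc n.totient ≤ Y.card := h2
      _ ≤ (Fintype.piFinset X).card := Finset.card_image_le
      _ = ∏ s, (X s).card := Fintype.card_piFinset X
      _ ≤ ∏ _s : S, (D + 1) := Finset.prod_le_prod' fun s _ => hXcard s
      _ = (D + 1) ^ Fintype.card S := by rw [Finset.prod_const, Finset.card_univ]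
  have hdvd := dvd_factorial_of_totient_le hn0 htot
  set F : ℕ := (2 * (D + 1) ^ Fintype.card S).factorial with hF
  have hres1 : res ψ (1 : L) = 1 := by simpa using res_natCast ψ 1
  have hresF : res ψ z ^ F = 1 := by
    have h2 : res ψ z ^ n = 1 := by
      apply eq_one_of_pow (r := r) (e := s')
      rw [← pow_mul, ← hns, ← res_pow ψ hzint, pow_orderOf_eq_one, hres1]
    obtain ⟨d, hd⟩ := hdvd
    rw [hd, pow_mul, h2, one_pow]
  have hresq : ∀ c : ℕ, res ψ ((((Nat.card k) ^ c) ^ M : ℕ) : L) = 1 := by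
    intro c
    rw [res_natCast, hM, ← pow_mul, mul_left_comm, pow_mul, Nat.cast_pow]
    have h2 : ((Nat.card k ^ ord k r : ℕ) : κ) = ((1 : ℕ) : κ) := by
      rw [CharP.natCast_eq_natCast κ r, ← ZMod.natCast_eq_natCast_iff]
      rw [Nat.cast_pow, Nat.cast_one]
      exact pow_orderOf_eq_one _
    rw [h2, Nat.cast_one, one_pow]
  have hresα : res ψ α₀ = res ψ z := by
    have h2 := congrArg (res ψ) hc
    rw [res_mul ψ hqint hα₀int, res_mul ψ (int_nat _) hzint, hresq, one_mul] at h2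
    have h3 := hresq b₀
    push_cast at h3
    rw [h3, one_mul] at h2
    exact h2
  have hne : ∀ s, res ψ (α s) ≠ 0 := by
    have h2 : ∏ s, res ψ (α s) ≠ 0 := by
      rw [← hresprod, hresα]
      intro h3
      rw [h3, zero_pow (Nat.factorial_ne_zero _)] at hresF
      exact zero_ne_one hresF
    rw [Finset.prod_ne_zero_iff] at h2
    exact fun s => h2 s (Finset.mem_univ s)
  choose u hu0 hu using fun s => hres s (hne s)
  refine h1 u ⟨s₀, hu0 s₀ hs₀⟩ E ?_
  apply hφ
  rw [map_pow, map_prod, map_one, ← hresF, ← hresα, hresprod,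
    Finset.prod_congr rfl fun s _ => hu s, Finset.prod_pow, ← pow_mul, mul_comm F]

end Pool.Agent.Helper61.KT
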