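import Pool.Agent.Helper61.KT.Prod

/-!
# Products of towers: the theorem from the existence of the primes
-/

open Module Polynomial

namespace Pool.Agent.Helper61.KT

open Pool.Agent.Helper73.KT Pool.Agent.Helper40.PC Pool.Agent.Helper33.KT

theorem cast_ne_zero_of_card_lt {k : Type} [Field k] [Finite k] {r : ℕ} (hrp : r.Prime)
    (h : Nat.card k < r) : (r : k) ≠ 0 := by
  intro h0
  obtain ⟨p, hp⟩ := CharP.exists k
  have hpp : p.Prime := CharP.char_is_prime k p
  have := Fintype.ofFinite k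
  obtain ⟨n, -, hn⟩ := FiniteField.card k p
  rw [CharP.cast_eq_zero_iff k p] at h0
  have h2 : p = r := (Nat.prime_dvd_prime_iff_eq hpp hrp).1 h0
  have h3 : Nat.card k = p ^ (n : ℕ) := by rw [Nat.card_eq_fintype_card, hn]
  have h4 : p ≤ p ^ (n : ℕ) := Nat.le_self_pow n.ne_zero p
  omega

theorem tate_prod {k S : Type} [Field k] [Finite k] [Fintype S] {A B : S → Type}
    [∀ s, CommRing (A s)] [∀ s, Algebra k (A s)] [∀ s, Algebra.FiniteType k (A s)]
    [∀ s, CommRing (B s)] [∀ s, Algebra k (B s)] [∀ s, Algebra.FiniteType k (B s)]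
    {J : S → Type} [∀ s, Fintype (J s)] (a : ∀ s, J s → ℂ)
    (ha : ∀ s i, IsIntegral ℤ (a s i)) (g : ∀ s, J s → ℤ[X])
    (hprimes : ∀ (J' : Type) [Fintype J'] (a' : J' → ℂ) (ha' : ∀ i, IsIntegral ℤ (a' i)),
      StmtPrimes a' ha')
    (indep : ∀ T : Finset S, T.Nonempty → ∀ u : ∀ s : T, J s,
      (∀ s : T, (g s (u s)).eval 1 ≠ 0) → ∀ n : ℕ, 0 < n → ∀ x : ℝ, (∏ s : T, a s (u s)) ^ n ≠ x)
    (points : ∀ s, ∀ (n : ℕ), 0 < n → ∀ (K : Type) [Field K] [Fintype K] [Algebra k K],
      finrank k K = n →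
        (Nat.card (A s →ₐ[k] K) : ℂ) - Fintype.card K * Nat.card (B s →ₐ[k] K) =
          ∑ i, ((g s i).eval (Fintype.card K : ℤ) : ℤ) * a s i ^ n) (D : ℕ) :
    ∃ R : Set ℕ, (∀ r ∈ R, r.Prime) ∧ ¬ Summable (fun r : R => (1 : ℝ) / (r : ℕ)) ∧
      ∀ r ∈ R, ∀ (e : ℕ) (L : Type) [Field L] [CharZero L] [IsAlgClosed L] (V ι : S → Type)
        [∀ s, AddCommGroup (V s)] [∀ s, Module L (V s)] [∀ s, FiniteDimensional L (V s)]
        (H : ∀ s, CoverH2 k (A s) (B s) L (V s) (ι s) r e),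
        (∀ s i, finrank L ((H s).W i) + Multiset.card ((H s).low i) ≤ D) →
        ∀ (w : S → ℕ), (∀ s, ∃ h, 0 < h ∧
          ∀ x ∈ (H s).N, ((H s).Fr ^ h) x = (Nat.card k : L) ^ (w s * h) • x) →
        ∀ (U : Type) [AddCommGroup U] [Module L U] (Fr : End L U) (μ : MultilinearMap L V U),
          (∀ v, Fr (μ v) = μ fun s => (H s).Fr (v s)) →
          Submodule.span L (Set.range μ) = ⊤ →
          ∀ (N w₀ j : ℕ), 0 < N → ∀ t : U,
            ((Fr ^ N - (Nat.card k : L) ^ (w₀ * N) • 1) ^ j) t = 0 →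
              t ∈ Submodule.span L (μ '' {v | ∀ s, v s ∈ (H s).N}) := by
  classical
  set F : ℕ := (2 * (D + 1) ^ Fintype.card S).factorial with hF
  let a' : (∀ s, Option {i : J s // (g s i).eval 1 ≠ 0}) → ℂ :=
    fun u => (∏ s, (u s).elim 1 fun i => a s i) ^ F
  have hai : ∀ (u : ∀ s, Option {i : J s // (g s i).eval 1 ≠ 0}) s,
      IsIntegral ℤ ((u s).elim (1 : ℂ) fun i => a s i) := by
    intro u s
    rcases u s with _ | i
    · exact isIntegral_one
    · exact ha s i
  have ha' : ∀ u, IsIntegral ℤ (a' u) := fun u =>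
    (IsIntegral.prod _ fun s _ => hai u s).pow F
  -- the products over the subsets
  have hreal : ∀ u : (∀ s, Option {i : J s // (g s i).eval 1 ≠ 0}), (∃ s, u s ≠ none) →
      ∀ n : ℕ, 0 < n → ∀ x : ℝ, (∏ s, (u s).elim (1 : ℂ) fun i => a s i) ^ n ≠ x := by
    intro u hu n hn x
    let T : Finset S := Finset.univ.filter fun s => u s ≠ none
    have hT : ∀ s : T, (u s).isSome := fun s =>
      Option.isSome_iff_ne_none.2 (Finset.mem_filter.1 s.2).2
    have h1 := indep T (by
      obtain ⟨s, hs⟩ := hu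
      exact ⟨s, Finset.mem_filter.2 ⟨Finset.mem_univ s, hs⟩⟩)
      (fun s => ((u s).get (hT s)).1) (fun s => ((u s).get (hT s)).2) n hn x
    have h2 : ∏ s, (u s).elim (1 : ℂ) (fun i => a s i) =
        ∏ s : T, a s ((u s).get (hT s)).1 := by
      rw [← Finset.prod_subset (Finset.filter_subset (fun s => u s ≠ none) Finset.univ)]
      · rw [← Finset.prod_coe_sort]
        refine Finset.prod_congr rfl fun s _ => ?_
        have h3 : u s = some ((u s).get (hT s)) := (Option.some_get (hT s)).symm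
        conv_lhs => rw [h3]
        rfl
      · intro s _ hs
        have h3 : u s = none := by
          by_contra h4
          exact hs (Finset.mem_filter.2 ⟨Finset.mem_univ s, h4⟩)
        rw [h3]
        rfl
    rw [h2]
    exact h1
  have ha0 : ∀ u, a' u ≠ 0 := by
    intro u
    by_cases hu : ∃ s, u s ≠ none
    · intro h
      exact hreal u hu F (Nat.factorial_pos _) 0 (by rw [Complex.ofReal_zero]; exact h)
    · push Not at hu
      have h1 : a' u = 1 := by
        change (∏ s, (u s).elim (1 : ℂ) fun i => a s i) ^ F = 1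
        rw [Finset.prod_eq_one fun s _ => by rw [hu s]; rfl, one_pow]
      rw [h1]
      exact one_ne_zero
  obtain ⟨R, hRp, hRs, hR⟩ := hprimes _ a' ha' ha0 (Nat.card k) (Nat.card_pos).ne'
    (Nat.card k + D)
  refine ⟨R, hRp, hRs, ?_⟩
  intro r hr e L _ _ _ V ι _ _ _ H dim w hN U _ _ Fr μ hμ hspan N w₀ j hN0 t ht
  have hrp : r.Prime := hRp r hr
  have : Fact r.Prime := ⟨hrp⟩
  obtain ⟨hB, -, hq, hΦ⟩ := hR r hr
  obtain ⟨Φ, h0, h1⟩ := hΦ
  have hrk : (r : k) ≠ 0 := cast_ne_zero_of_card_lt hrp (by omega)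
  refine prod_of_hom a ha g points hrk (by omega) Φ ?_ H dim w hN Fr μ hμ hspan hN0 ht
  intro u hu E heq
  obtain ⟨c, hc⟩ : ord k r ∣ (r - 1) / 2 := orderOf_dvd_of_pow_eq_one hq
  refine h1 u (fun _ => none) ?_ E ?_
  · intro x hx h
    apply hreal u hu F (Nat.factorial_pos _) x
    have h2 : a' (fun _ => none) = 1 := by
      change (∏ s, (none : Option {i : J s // (g s i).eval 1 ≠ 0}).elim (1 : ℂ)
        fun i => a s i) ^ F = 1
      simp only [Option.elim_none, Finset.prod_const_one, one_pow]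
    rw [h2, mul_one] at h
    exact h
  · have h2 : (⟨a' (fun _ => none), ha' _⟩ : integralClosure ℤ ℂ) = 1 := by
      apply Subtype.ext
      change (∏ s, (none : Option {i : J s // (g s i).eval 1 ≠ 0}).elim (1 : ℂ)
        fun i => a s i) ^ F = 1
      simp only [Option.elim_none, Finset.prod_const_one, one_pow]
    have h3 : (⟨a' u, ha' u⟩ : integralClosure ℤ ℂ) =
        (∏ s, ⟨(u s).elim (1 : ℂ) fun i => a s i, hai u s⟩) ^ F := by
      apply Subtype.ext
      simp [a']
    have h4 : ∀ s, Φ ⟨(u s).elim (1 : ℂ) fun i => a s i, hai u s⟩ =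
        (u s).elim 1 fun i => Φ ⟨a s i, ha s i⟩ := by
      intro s
      have h5 : ∀ (o : Option {i : J s // (g s i).eval 1 ≠ 0})
          (ho : IsIntegral ℤ (o.elim (1 : ℂ) fun i => a s i)),
          Φ ⟨o.elim (1 : ℂ) fun i => a s i, ho⟩ = o.elim 1 fun i => Φ ⟨a s i, ha s i⟩ := by
        intro o ho
        rcases o with _ | i
        · exact map_one Φ
        · rfl
      exact h5 _ _
    rw [h2, map_one, one_pow, h3, map_pow, map_prod, Finset.prod_congr rfl fun s _ => h4 s,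
      ← pow_mul, hc]
    have h6 : F * (ord k r * c * r ^ E) = F * (ord k r * r ^ E) * c := by ring
    rw [h6, pow_mul, heq, one_pow]

end Pool.Agent.Helper61.KT
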