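import Pool.Agent.Helper33.KT.Glue

/-!
# The congruence modulo `r` and the eigenvalues `q ^ m ζ`
-/

open Module Polynomial

namespace Pool.Agent.Helper61.KT

open Pool.Agent.Helper73.KT Pool.Agent.Helper40.PC Pool.Agent.Helper33.KT

section abstract_part

variable {L κ W : Type*} [Field L] [CharZero L] [IsAlgClosed L] [Field κ] [AddCommGroup W]
  [Module L W] [FiniteDimensional L W] (M : integralClosure ℤ L →+* κ)

/-- Small dimension: the residue of each eigenvalue is one of the given elements. -/
theorem res_mem_small {r : ℕ} [CharP κ r] {T : End L W} (B : Multiset L) {J : Type*} [Fintype J]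
    (b : J → κ) (hdim : finrank L W + Multiset.card B < r)
    (hps : ∀ j : ℕ, 0 < j → ∑ c ∈ eigs T, (mult T c : κ) * res M c ^ j +
      (B.map (fun b => res M b ^ j)).sum = ∑ i, b i ^ j) {a : L} (ha : a ∈ eigs T)
    (ha0 : res M a ≠ 0) : ∃ i, b i = res M a := by
  classical
  by_contra hcon
  push Not at hcon
  have h1 := nres_cast M (T := T) B (Finset.univ.image b)
    (fun z => ((Finset.univ.filter (fun i => b i = z)).card : κ)) (fun j hj => by
      rw [hps j hj, ← Finset.sum_fiberwise_of_maps_to (g := b) (t := Finset.univ.image b)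
        (fun i hi => Finset.mem_image_of_mem b hi)]
      refine Finset.sum_congr rfl fun u _ => ?_
      rw [Finset.sum_congr rfl (g := fun _ => u ^ j)
        (fun i hi => by rw [(Finset.mem_filter.1 hi).2]), Finset.sum_const, nsmul_eq_mul])
    (res M a) ha0
  rw [if_neg (by
    intro h
    obtain ⟨i, -, hi⟩ := Finset.mem_image.1 h
    exact hcon i hi), CharP.cast_eq_zero_iff κ r] at h1
  have h2 := nres_total M T B {res M a}
  rw [Finset.sum_singleton] at h2
  have h3 := mult_le_nres M T B a
  have h4 := one_le_mult ha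
  have h5 := Nat.le_of_dvd (by omega) h1
  omega

end abstract_part

variable {k A B L V ι : Type} [Field k] [Finite k] [CommRing A] [Algebra k A]
    [Algebra.FiniteType k A] [CommRing B] [Algebra k B] [Algebra.FiniteType k B] [Field L]
    [CharZero L] [IsAlgClosed L] [AddCommGroup V] [Module L V] [FiniteDimensional L V]

/-- The congruence modulo `r` for one part, the residues need not be different. -/
theorem residual_small {r e : ℕ} [Fact r.Prime] (hr : (r : k) ≠ 0) {J : Type} [Fintype J]
    (b : J → AlgebraicClosure (ZMod r))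
    (points : ∀ (j : ℕ), 0 < j → ∀ (K : Type) [Field K] [Fintype K] [Algebra k K],
      finrank k K = j * ord k r →
        (Nat.card (A →ₐ[k] K) : AlgebraicClosure (ZMod r)) - Nat.card (B →ₐ[k] K) =
          ∑ i, b i ^ j)
    (H : CoverH2 k A B L V ι r e) (i : ι)
    (dim : finrank L (H.W i) + Multiset.card (H.low i) < r)
    {κ : Type} [Field κ] [CharP κ r] (ψ : integralClosure ℤ L →+* κ)
    (φ : AlgebraicClosure (ZMod r) →+* κ) :
    ∀ a ∈ eigs ((H.Fr ^ (ord k r * r ^ H.s i)).restrict (H.stable i) : End L (H.W i)),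
      res ψ a ≠ 0 → ∃ z, res ψ a = φ (b z) ^ r ^ H.s i := by
  classical
  have hrp : r.Prime := Fact.out
  have hm : 0 < ord k r := ord_pos hr
  -- the residual power sums
  set T : End L (H.W i) := (H.Fr ^ (ord k r * r ^ H.s i)).restrict (H.stable i) with hT
  have hps : ∀ j : ℕ, 0 < j → ∑ a ∈ eigs T, (mult T a : κ) * res ψ a ^ j +
      ((H.low i).map (fun b => res ψ b ^ j)).sum = ∑ z, (φ (b z) ^ r ^ H.s i) ^ j := by
    intro j hj
    have hM : 0 < ord k r * r ^ H.s i := Nat.mul_pos hm (pow_pos hrp.pos _)
    have hN : 0 < j * (ord k r * r ^ H.s i) := Nat.mul_pos hj hM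
    obtain ⟨K, _, _, hK⟩ := exists_field k hN
    have hfin1 : Module.Finite k K := Module.finite_of_finrank_pos (by rw [hK]; exact hN)
    have hfin2 : Finite K := Module.finite_of_finite k
    have hfin3 : Fintype K := Fintype.ofFinite K
    have hfin4 : Finite (A →ₐ[k] K) := finite_points finrank_pos
    have hfin5 : Fintype (A →ₐ[k] K) := Fintype.ofFinite _
    have hfin6 : Finite (B →ₐ[k] K) := finite_points finrank_pos
    have hfin7 : Fintype (B →ₐ[k] K) := Fintype.ofFinite _
    have hordK : ord k r ∣ finrank k K := by rw [hK]; exact ⟨j * r ^ H.s i, by ring⟩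
    have hQ : (Fintype.card K : κ) = 1 := card_eq_one hordK
    obtain ⟨t, h, ht, hh, htr⟩ := H.trace_formula i j hj K hK
    rw [finsum_eq_sum_of_fintype, finsum_eq_sum_of_fintype] at htr
    have hit : ∀ P ∈ Finset.univ, IsIntegral ℤ (t P) := fun P _ => int_root (ht P)
    have hih : ∀ Q ∈ Finset.univ, IsIntegral ℤ (h Q) := fun Q _ => int_root (hh Q)
    have hI1 : IsIntegral ℤ (∑ P, t P) := IsIntegral.sum _ hit
    have hI2 : IsIntegral ℤ (∑ Q, h Q) := IsIntegral.sum _ hih
    rw [res_trace ψ (eigs_integral H.integral (H.stable i)) (H.low_integral i) j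
      (hI1.sub ((int_nat _).mul hI2)) htr, res_sub ψ hI1 ((int_nat _).mul hI2),
      res_mul ψ (int_nat _) hI2, res_natCast, hQ, one_mul, res_sum ψ _ _ hit, res_sum ψ _ _ hih,
      Finset.sum_congr rfl fun P _ => res_root ψ (ht P),
      Finset.sum_congr rfl fun Q _ => res_root ψ (hh Q), Finset.sum_const, Finset.sum_const,
      nsmul_eq_mul, nsmul_eq_mul, mul_one, mul_one, Finset.card_univ, Finset.card_univ]
    have h1 := congrArg φ (points (j * r ^ H.s i) (Nat.mul_pos hj (pow_pos hrp.pos _)) K
      (by rw [hK]; ring))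
    rw [map_sub, map_natCast, map_natCast, map_sum,
      Nat.card_eq_fintype_card, Nat.card_eq_fintype_card] at h1
    rw [h1]
    refine Finset.sum_congr rfl fun z _ => ?_
    rw [map_pow, ← pow_mul, mul_comm j]
  intro a ha ha0
  obtain ⟨z, hz⟩ := res_mem_small ψ (H.low i) (fun z => φ (b z) ^ r ^ H.s i) dim hps ha ha0
  exact ⟨z, hz.symm⟩

/-- If the powers `θ ^ m` of the numbers `θ` with `θ ^ N = Q` are eigenvalues of `F ^ m` on no part
`W`, then the generalised eigenvectors of `F ^ N` with eigenvalue `Q` lie in `N₀`. -/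
theorem mem_of_parts {Fr : End L V} {N₀ : Submodule L V} (hN₀ : ∀ x ∈ N₀, Fr x ∈ N₀)
    {W : ι → Submodule L V} (span : N₀ ⊔ ⨆ i, W i = ⊤) {m : ι → ℕ}
    (stable : ∀ i, ∀ x ∈ W i, (Fr ^ m i) x ∈ W i) {N : ℕ} {Q : L}
    (h : ∀ (i : ι) (θ : L), θ ^ N = Q →
      θ ^ m i ∉ eigs ((Fr ^ m i).restrict (stable i) : End L (W i)))
    {j : ℕ} {t : V} (ht : ((Fr ^ N - Q • 1) ^ j) t = 0) : t ∈ N₀ := by
  classical
  have hpol : ∀ (p : L[X]), ∀ x ∈ N₀, (aeval Fr p) x ∈ N₀ := by
    intro p x hx
    induction p using Polynomial.induction_on' with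
    | add f g hf hg => rw [map_add, LinearMap.add_apply]; exact N₀.add_mem hf hg
    | monomial n c =>
      rw [aeval_monomial, End.mul_apply, Module.algebraMap_end_apply]
      refine N₀.smul_mem _ ?_
      clear c
      induction n with
      | zero => simpa using hx
      | succ n ih => rw [pow_succ', End.mul_apply]; exact hN₀ _ ih
  let S : Submodule L V :=
    { carrier := {x | ∃ p : L[X], IsCoprime p ((X ^ N - C Q) ^ j) ∧ (aeval Fr p) x ∈ N₀}
      zero_mem' := ⟨1, isCoprime_one_left, by rw [map_zero]; exact N₀.zero_mem⟩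
      add_mem' := by
        rintro x y ⟨p, hp, hpx⟩ ⟨p', hp', hpy⟩
        refine ⟨p * p', hp.mul_left hp', ?_⟩
        rw [map_add]
        refine N₀.add_mem ?_ ?_
        · rw [mul_comm, map_mul, End.mul_apply]
          exact hpol p' _ hpx
        · rw [map_mul, End.mul_apply]
          exact hpol p _ hpy
      smul_mem' := by
        rintro c x ⟨p, hp, hpx⟩
        exact ⟨p, hp, by rw [map_smul]; exact N₀.smul_mem _ hpx⟩ }
  have hS : S = ⊤ := by
    rw [eq_top_iff, ← span]
    refine sup_le (fun x hx => ⟨1, isCoprime_one_left, by simpa using hx⟩) (iSup_le fun i => ?_)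
    intro x hx
    set T : End L (W i) := (Fr ^ m i).restrict (stable i) with hT
    -- the characteristic polynomial of `T` in `X ^ m`
    refine ⟨(T.charpoly).comp (X ^ m i), ?_, ?_⟩
    · apply IsCoprime.pow_right
      rw [Polynomial.isCoprime_iff_aeval_ne_zero_of_isAlgClosed L L]
      intro θ
      by_contra hcon
      push Not at hcon
      obtain ⟨h1, h2⟩ := hcon
      rw [coe_aeval_eq_eval, eval_sub, eval_pow, eval_X, eval_C, sub_eq_zero] at h2
      rw [coe_aeval_eq_eval, eval_comp, eval_pow, eval_X] at h1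
      refine h i θ h2 ?_
      rw [mem_eigs]
      have h3 : T.HasEigenvalue (θ ^ m i) := by
        rw [End.hasEigenvalue_iff_isRoot_charpoly]
        exact h1
      intro h4
      exact h3 (le_bot_iff.1 ((eigenspace_le T _).trans h4.le))
    · have h1 : ∀ (p : L[X]) (y : W i), (aeval Fr (p.comp (X ^ m i))) (y : V) =
          ((aeval T p) y : V) := by
        intro p y
        rw [aeval_comp, map_pow, aeval_X]
        induction p using Polynomial.induction_on' with
        | add f g hf hg => rw [map_add, map_add, LinearMap.add_apply, LinearMap.add_apply, hf, hg]; rfl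
        | monomial n c =>
          rw [aeval_monomial, aeval_monomial, End.mul_apply, End.mul_apply,
            Module.algebraMap_end_apply, Module.algebraMap_end_apply]
          have h2 : ∀ n : ℕ, ((Fr ^ m i) ^ n) (y : V) = ((T ^ n) y : V) := by
            intro n
            induction n with
            | zero => rfl
            | succ n ih => rw [pow_succ', End.mul_apply, ih, pow_succ', End.mul_apply]; rfl
          rw [h2]
          rfl
      have h2 := h1 T.charpoly ⟨x, hx⟩
      rw [LinearMap.aeval_self_charpoly] at h2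
      have h3 : (aeval Fr ((T.charpoly).comp (X ^ m i))) x = 0 := by
        simpa using h2
      rw [h3]
      exact N₀.zero_mem
  have ht' : t ∈ S := by rw [hS]; exact Submodule.mem_top
  obtain ⟨p, ⟨u, v, huv⟩, hpt⟩ := ht'
  have h1 := congrArg (fun P => (aeval Fr P) t) huv
  simp only [map_add, map_mul, map_one, LinearMap.add_apply, End.mul_apply, End.one_apply] at h1
  have h2 : (aeval Fr ((X ^ N - C Q) ^ j)) t = 0 := by
    rw [map_pow, map_sub, map_pow, aeval_X, aeval_C]
    rw [← ht]
    rfl
  rw [h2, map_zero, add_zero] at h1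
  rw [← h1]
  exact hpol u _ hpt

end Pool.Agent.Helper61.KT
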