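import Mathlib

/-!
# Numbers with a small totient
-/

namespace Pool.Agent.Helper61.KT

/-- If `φ(n) ≤ D` then `n` divides `(2 D)!`. -/
theorem dvd_factorial_of_totient_le {n D : ℕ} (hn : n ≠ 0) (h : n.totient ≤ D) :
    n ∣ (2 * D).factorial := by
  rw [Nat.dvd_iff_prime_pow_dvd_dvd]
  intro p k hp hpk
  rcases Nat.eq_zero_or_pos k with rfl | hk
  · rw [pow_zero]; exact one_dvd _
  apply Nat.dvd_factorial (pow_pos hp.pos k)
  have h1 : (p ^ k).totient ≤ n.totient :=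
    Nat.le_of_dvd (Nat.totient_pos.2 (Nat.pos_of_ne_zero hn)) (Nat.totient_dvd_of_dvd hpk)
  rw [Nat.totient_prime_pow hp hk] at h1
  have h2 : p ^ k = p ^ (k - 1) * p := by
    rw [← pow_succ, Nat.sub_add_cancel hk]
  have h3 : p ≤ 2 * (p - 1) := by
    have := hp.two_le
    omega
  calc p ^ k = p ^ (k - 1) * p := h2
    _ ≤ p ^ (k - 1) * (2 * (p - 1)) := Nat.mul_le_mul_left _ h3
    _ = 2 * (p ^ (k - 1) * (p - 1)) := by ring
    _ ≤ 2 * D := Nat.mul_le_mul_left _ (h1.trans h)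

/-- An order is a number prime to `r` times a power of `r`. -/
theorem exists_split {n r : ℕ} (hr : r.Prime) (hn : n ≠ 0) :
    ∃ m t : ℕ, m ≠ 0 ∧ m.Coprime r ∧ n = m * r ^ t := by
  obtain ⟨t, m, hm, h⟩ := Nat.exists_eq_pow_mul_and_not_dvd hn r hr.ne_one
  refine ⟨m, t, ?_, ?_, by rw [h]; ring⟩
  · rintro rfl
    exact hm (dvd_zero _)
  · exact ((Nat.Prime.coprime_iff_not_dvd hr).2 hm).symm

end Pool.Agent.Helper61.KT
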