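import Pool.Agent.Helper33.KT.Wide
import Pool.Agent.Helper33.KT.Bound
import Pool.Agent.Helper61.KT.Tate
import Pool.Agent.Helper61.KT.Totient

/-!
# Kummer towers: no Tate classes outside the algebraic part
-/

open Module Polynomial

namespace Pool.Agent.Helper61.KT

open Pool.Agent.Helper73.KT Pool.Agent.Helper40.PC Pool.Agent.Helper33.KT

section abstract_part

variable {L κ W : Type*} [Field L] [CharZero L] [IsAlgClosed L] [Field κ] [AddCommGroup W]
  [Module L W] [FiniteDimensional L W] (M : integralClosure ℤ L →+* κ)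

/-- Small dimension: the residue of each eigenvalue is one of the given elements. -/
theorem res_mem_wide {r : ℕ} [CharP κ r] {T : End L W} (B : Multiset L) {J : Type*} [Fintype J]
    (b w : J → κ) (hdim : finrank L W + Multiset.card B < r)
    (hps : ∀ j : ℕ, 0 < j → ∑ c ∈ eigs T, (mult T c : κ) * res M c ^ j +
      (B.map (fun b => res M b ^ j)).sum = ∑ i, w i * b i ^ j) {a : L} (ha : a ∈ eigs T)
    (ha0 : res M a ≠ 0) : ∃ i, w i ≠ 0 ∧ b i = res M a := by
  classical
  by_contra hcon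
  push Not at hcon
  let I : Finset J := Finset.univ.filter fun i => w i ≠ 0
  have hI : ∀ j : ℕ, ∑ i, w i * b i ^ j = ∑ i ∈ I, w i * b i ^ j := by
    intro j
    rw [Finset.sum_filter]
    refine Finset.sum_congr rfl fun i _ => ?_
    split_ifs with h
    · rfl
    · rw [not_not.1 h, zero_mul]
  have h1 := nres_cast M (T := T) B (I.image b)
    (fun z => ∑ i ∈ I with b i = z, w i) (fun j hj => by
      rw [hps j hj, hI, ← Finset.sum_fiberwise_of_maps_to (g := b) (t := I.image b)
        (fun i hi => Finset.mem_image_of_mem b hi)]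
      refine Finset.sum_congr rfl fun u _ => ?_
      rw [Finset.sum_mul]
      exact Finset.sum_congr rfl fun i hi => by rw [(Finset.mem_filter.1 hi).2])
    (res M a) ha0
  rw [if_neg (by
    intro h
    obtain ⟨i, hi, hia⟩ := Finset.mem_image.1 h
    exact hcon i (Finset.mem_filter.1 hi).2 hia), CharP.cast_eq_zero_iff κ r] at h1
  have h2 := nres_total M T B {res M a}
  rw [Finset.sum_singleton] at h2
  have h3 := mult_le_nres M T B a
  have h4 := one_le_mult ha
  have h5 := Nat.le_of_dvd (by omega) h1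
  omega

end abstract_part

variable {k A B L V ι : Type} [Field k] [Finite k] [CommRing A] [Algebra k A]
    [Algebra.FiniteType k A] [CommRing B] [Algebra k B] [Algebra.FiniteType k B] [Field L]
    [CharZero L] [IsAlgClosed L] [AddCommGroup V] [Module L V] [FiniteDimensional L V]

/-- The congruence modulo `r` for one part. -/
theorem residual_wide {r e : ℕ} [Fact r.Prime] (hr : (r : k) ≠ 0) {J : Type} [Fintype J]
    (b w : J → AlgebraicClosure (ZMod r))
    (points : ∀ (j : ℕ), 0 < j → ∀ (K : Type) [Field K] [Fintype K] [Algebra k K],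
      finrank k K = j * ord k r →
        (Nat.card (A →ₐ[k] K) : AlgebraicClosure (ZMod r)) - Nat.card (B →ₐ[k] K) =
          ∑ i, w i * b i ^ j)
    (H : CoverH2 k A B L V ι r e) (i : ι)
    (dim : finrank L (H.W i) + Multiset.card (H.low i) < r)
    {κ : Type} [Field κ] [CharP κ r] (ψ : integralClosure ℤ L →+* κ)
    (φ : AlgebraicClosure (ZMod r) →+* κ) :
    ∀ a ∈ eigs ((H.Fr ^ (ord k r * r ^ H.s i)).restrict (H.stable i) : End L (H.W i)),
      res ψ a ≠ 0 → ∃ z, w z ≠ 0 ∧ res ψ a = φ (b z) ^ r ^ H.s i := by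
  classical
  have hrp : r.Prime := Fact.out
  have hm : 0 < ord k r := ord_pos hr
  -- the residual power sums
  set T : End L (H.W i) := (H.Fr ^ (ord k r * r ^ H.s i)).restrict (H.stable i) with hT
  have hps : ∀ j : ℕ, 0 < j → ∑ a ∈ eigs T, (mult T a : κ) * res ψ a ^ j +
      ((H.low i).map (fun b => res ψ b ^ j)).sum =
        ∑ z, φ (w z) * (φ (b z) ^ r ^ H.s i) ^ j := by
    intro j hj
    have hM : 0 < ord k r * r ^ H.s i := Nat.mul_pos hm (pow_pos hrp.pos _)
    have hN : 0 < j * (ord k r * r ^ H.s i) := Nat.mul_pos hj hM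
    obtain ⟨K, _, _, hK⟩ := exists_field k hN
    have hfin1 : Module.Finite k K := Module.finite_of_finrank_pos (by rw [hK]; exact hN)
    have hfin2 : Finite K := Module.finite_of_finite k
    have hfin3 : Fintype K := Fintype.ofFinite K
    have hfin4 : Finite (A →ₐ[k] K) := finite_points finrank_pos
    have hfin5 : Fintype (A →ₐ[k] K) := Fintype.ofFinite _
    have hfin6 : Finite (B →ₐ[k] K) := finite_points finrank_pos
    have hfin7 : Fintype (B →ₐ[k] K) := Fintype.ofFinite _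
    have hordK : ord k r ∣ finrank k K := by rw [hK]; exact ⟨j * r ^ H.s i, by ring⟩
    have hQ : (Fintype.card K : κ) = 1 := card_eq_one hordK
    obtain ⟨t, h, ht, hh, htr⟩ := H.trace_formula i j hj K hK
    rw [finsum_eq_sum_of_fintype, finsum_eq_sum_of_fintype] at htr
    have hit : ∀ P ∈ Finset.univ, IsIntegral ℤ (t P) := fun P _ => int_root (ht P)
    have hih : ∀ Q ∈ Finset.univ, IsIntegral ℤ (h Q) := fun Q _ => int_root (hh Q)
    have hI1 : IsIntegral ℤ (∑ P, t P) := IsIntegral.sum _ hit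
    have hI2 : IsIntegral ℤ (∑ Q, h Q) := IsIntegral.sum _ hih
    rw [res_trace ψ (eigs_integral H.integral (H.stable i)) (H.low_integral i) j
      (hI1.sub ((int_nat _).mul hI2)) htr, res_sub ψ hI1 ((int_nat _).mul hI2),
      res_mul ψ (int_nat _) hI2, res_natCast, hQ, one_mul, res_sum ψ _ _ hit, res_sum ψ _ _ hih,
      Finset.sum_congr rfl fun P _ => res_root ψ (ht P),
      Finset.sum_congr rfl fun Q _ => res_root ψ (hh Q), Finset.sum_const, Finset.sum_const,
      nsmul_eq_mul, nsmul_eq_mul, mul_one, mul_one, Finset.card_univ, Finset.card_univ]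
    have h1 := congrArg φ (points (j * r ^ H.s i) (Nat.mul_pos hj (pow_pos hrp.pos _)) K
      (by rw [hK]; ring))
    rw [map_sub, map_natCast, map_natCast, map_sum,
      Nat.card_eq_fintype_card, Nat.card_eq_fintype_card] at h1
    rw [h1]
    refine Finset.sum_congr rfl fun z _ => ?_
    rw [map_mul, map_pow, ← pow_mul, mul_comm j]
  intro a ha ha0
  obtain ⟨z, hz0, hz⟩ := res_mem_wide ψ (H.low i) (fun z => φ (b z) ^ r ^ H.s i)
    (fun z => φ (w z)) dim hps ha ha0
  exact ⟨z, fun h => hz0 (by rw [h, map_zero]), hz.symm⟩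

omit [IsAlgClosed L] [CharZero L] [FiniteDimensional L V] in
/-- the traces are sums of roots of unity -/
theorem trace_mem {r e : ℕ} [Fact r.Prime] (hr : (r : k) ≠ 0) (H : CoverH2 k A B L V ι r e)
    (i : ι) (j : ℕ) (hj : 0 < j) :
    LinearMap.trace L (H.W i) (((H.Fr ^ (ord k r * r ^ H.s i)).restrict (H.stable i)) ^ j) +
      ((H.low i).map (fun b => b ^ j)).sum ∈ Algebra.adjoin ℤ {z : L | z ^ r ^ e = 1} := by
  have hrp : r.Prime := Fact.out
  have hm : 0 < ord k r := ord_pos hr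
  have hM : 0 < ord k r * r ^ H.s i := Nat.mul_pos hm (pow_pos hrp.pos _)
  have hN : 0 < j * (ord k r * r ^ H.s i) := Nat.mul_pos hj hM
  obtain ⟨K, _, _, hK⟩ := exists_field k hN
  have hfin1 : Module.Finite k K := Module.finite_of_finrank_pos (by rw [hK]; exact hN)
  have hfin2 : Finite K := Module.finite_of_finite k
  have hfin3 : Fintype K := Fintype.ofFinite K
  have hfin4 : Finite (A →ₐ[k] K) := finite_points finrank_pos
  have hfin5 : Fintype (A →ₐ[k] K) := Fintype.ofFinite _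
  have hfin6 : Finite (B →ₐ[k] K) := finite_points finrank_pos
  have hfin7 : Fintype (B →ₐ[k] K) := Fintype.ofFinite _
  obtain ⟨t, h, ht, hh, htr⟩ := H.trace_formula i j hj K hK
  rw [finsum_eq_sum_of_fintype, finsum_eq_sum_of_fintype] at htr
  rw [htr]
  refine Subalgebra.sub_mem _ (Subalgebra.sum_mem _ fun x _ => Algebra.subset_adjoin (ht x))
    (Subalgebra.mul_mem _ (natCast_mem _ _)
      (Subalgebra.sum_mem _ fun y _ => Algebra.subset_adjoin (hh y)))

theorem tate_of_hom {J : Type} [Fintype J] (a : J → ℂ) (ha : ∀ i, IsIntegral ℤ (a i))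
    (g : J → ℤ[X])
    (points : ∀ (n : ℕ), 0 < n → ∀ (K : Type) [Field K] [Fintype K] [Algebra k K],
      finrank k K = n → (Nat.card (A →ₐ[k] K) : ℂ) - Fintype.card K * Nat.card (B →ₐ[k] K) =
        ∑ i, ((g i).eval (Fintype.card K : ℤ) : ℤ) * a i ^ n)
    {r e D : ℕ} [Fact r.Prime] (hr : (r : k) ≠ 0) (hD : D < r)
    (Φ : integralClosure ℤ ℂ →+* AlgebraicClosure (ZMod r))
    (h1 : ∀ i, (g i).eval 1 ≠ 0 → ∀ s,
      Φ ⟨a i, ha i⟩ ^ ((2 * D).factorial * (ord k r * r ^ s)) ≠ 1)
    (H : CoverH2 k A B L V ι r e)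
    (dim : ∀ i, finrank L (H.W i) + Multiset.card (H.low i) ≤ D)
    {N w j : ℕ} (hN : 0 < N) {t : V}
    (ht : ((H.Fr ^ N - (Nat.card k : L) ^ (w * N) • 1) ^ j) t = 0) :
    t ∈ H.N := by
  classical
  have hrp : r.Prime := Fact.out
  have hm : 0 < ord k r := ord_pos hr
  refine mem_of_parts H.N_stable H.span (m := fun i => ord k r * r ^ H.s i) H.stable
    (Q := (Nat.card k : L) ^ (w * N)) ?_ ht
  intro i θ hθ hc
  have hqk : (Nat.card k : L) ^ w ≠ 0 := pow_ne_zero _ (Nat.cast_ne_zero.2 (Nat.card_pos).ne')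
  set m : ℕ := ord k r * r ^ H.s i with hmdef
  have hm0 : 0 < m := Nat.mul_pos hm (pow_pos hrp.pos _)
  set z : L := (θ / (Nat.card k : L) ^ w) ^ m with hz
  have hzN : z ^ N = 1 := by
    rw [hz, ← pow_mul, mul_comm m, pow_mul, div_pow, hθ, ← pow_mul,
      div_self (pow_ne_zero _ (Nat.cast_ne_zero.2 (Nat.card_pos).ne')), one_pow]
  have hzfin : IsOfFinOrder z := isOfFinOrder_iff_pow_eq_one.2 ⟨N, hN, hzN⟩
  have hzord : orderOf z ≠ 0 := (orderOf_pos_iff.2 hzfin).ne'
  obtain ⟨n, s, hn0, hn, hns⟩ := exists_split hrp hzord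
  have hcz : θ ^ m = (((Nat.card k ^ w) ^ m : ℕ) : L) * z := by
    rw [hz, Nat.cast_pow, Nat.cast_pow, ← mul_pow, mul_div_cancel₀ _ hqk]
  have hφ := phi_le _ (eigs_integral H.integral (H.stable i)) (H.low i) (H.low_integral i)
    (fun j hj => trace_mem hr H i j hj)
    (pow_ne_zero m (pow_ne_zero w (Nat.card_pos (α := k)).ne')) hc hcz hn hns
  have hdvd := dvd_factorial_of_totient_le hn0 (hφ.trans (dim i))
  -- a residue field of characteristic `r`
  obtain ⟨κ, _, _, _, ψ, -⟩ := exists_res_closed (L := L) (r := r)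
    (x := (1 : integralClosure ℤ L)) (by
      intro N h
      apply not_integral_inv (L := L) hrp
      simpa using h)
  let : Algebra (ZMod r) κ := ZMod.algebra κ r
  let φ : AlgebraicClosure (ZMod r) →ₐ[ZMod r] κ := IsAlgClosed.lift
  have hzint : IsIntegral ℤ z := by
    have h2 : IsIntegral ℤ (z ^ N) := by rw [hzN]; exact isIntegral_one
    exact h2.of_pow hN
  have hresQ : res ψ (((Nat.card k ^ w) ^ m : ℕ) : L) = 1 := by
    rw [res_natCast, hmdef, ← pow_mul, mul_left_comm, pow_mul, Nat.cast_pow]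
    have h2 : ((Nat.card k ^ ord k r : ℕ) : κ) = ((1 : ℕ) : κ) := by
      rw [CharP.natCast_eq_natCast κ r, ← ZMod.natCast_eq_natCast_iff]
      rw [Nat.cast_pow, Nat.cast_one]
      exact pow_orderOf_eq_one _
    rw [h2, Nat.cast_one, one_pow]
  have hres1 : res ψ (1 : L) = 1 := by simpa using res_natCast ψ 1
  have hresc : res ψ (θ ^ m) = res ψ z := by
    rw [hcz, res_mul ψ (int_nat _) hzint, hresQ, one_mul]
  have hresn : res ψ z ^ n = 1 := by
    apply eq_one_of_pow (r := r) (e := s)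
    rw [← pow_mul, ← hns, ← res_pow ψ hzint, pow_orderOf_eq_one, hres1]
  have hresf : res ψ z ^ (2 * D).factorial = 1 := by
    obtain ⟨d, hd⟩ := hdvd
    rw [hd, pow_mul, hresn, one_pow]
  have hne : res ψ (θ ^ m) ≠ 0 := by
    rw [hresc]
    intro h2
    rw [h2, zero_pow (Nat.factorial_ne_zero _)] at hresf
    exact zero_ne_one hresf
  obtain ⟨u, hu0, hu⟩ := residual_wide hr (fun u => Φ ⟨a u, ha u⟩ ^ ord k r)
    (fun u => (((g u).eval 1 : ℤ) : AlgebraicClosure (ZMod r)))
    (fun j hj K _ _ _ hK => points_mod_wide a ha g points hr Φ j hj K hK) H i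
    ((dim i).trans_lt hD) ψ φ.toRingHom (θ ^ m) hc hne
  have hu' : ∀ y : AlgebraicClosure (ZMod r), res ψ (θ ^ m) = φ (y ^ ord k r) ^ r ^ H.s i →
      y ^ ((2 * D).factorial * (ord k r * r ^ H.s i)) = 1 := by
    intro y hy
    apply φ.injective
    rw [map_one, ← hresf, ← hresc, hy, map_pow, map_pow, ← pow_mul, ← pow_mul]
    congr 1
    ring
  exact h1 u (fun h => hu0 (by rw [h, Int.cast_zero])) (H.s i) (hu' _ hu)

/-- The theorem from the existence of the primes. -/
theorem tate_wide {k A B : Type} [Field k] [Finite k] [CommRing A] [Algebra k A]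
    [Algebra.FiniteType k A] [CommRing B] [Algebra k B] [Algebra.FiniteType k B]
    {J : Type} [Fintype J] (a : J → ℂ) (ha : ∀ i, IsIntegral ℤ (a i)) (g : J → ℤ[X])
    (hprimes : ∀ (J' : Type) [Fintype J'] (a' : J' → ℂ) (ha' : ∀ i, IsIntegral ℤ (a' i)),
      StmtPrimes a' ha')
    (real : ∀ i, (g i).eval 1 ≠ 0 → ∀ n : ℕ, 0 < n → ∀ x : ℝ, a i ^ n ≠ x)
    (points : ∀ (n : ℕ), 0 < n → ∀ (K : Type) [Field K] [Fintype K] [Algebra k K],
      finrank k K = n → (Nat.card (A →ₐ[k] K) : ℂ) - Fintype.card K * Nat.card (B →ₐ[k] K) =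
        ∑ i, ((g i).eval (Fintype.card K : ℤ) : ℤ) * a i ^ n) (D : ℕ) :
    ∃ R : Set ℕ, (∀ r ∈ R, r.Prime) ∧ ¬ Summable (fun r : R => (1 : ℝ) / (r : ℕ)) ∧
      ∀ r ∈ R, ∀ (e : ℕ) (L V ι : Type) [Field L] [CharZero L] [IsAlgClosed L]
        [AddCommGroup V] [Module L V] [FiniteDimensional L V] (H : CoverH2 k A B L V ι r e),
        (∀ i, finrank L (H.W i) + Multiset.card (H.low i) ≤ D) →
          ∀ (N w j : ℕ), 0 < N → ∀ t : V,
            ((H.Fr ^ N - (Nat.card k : L) ^ (w * N) • 1) ^ j) t = 0 → t ∈ H.N := by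
  classical
  set F : ℕ := (2 * D).factorial with hF
  let a' : Option {i // (g i).eval 1 ≠ 0} → ℂ := fun i => i.elim 1 fun i => a i ^ F
  have ha' : ∀ i, IsIntegral ℤ (a' i) := by
    rintro (_ | i)
    · exact isIntegral_one
    · exact (ha i).pow F
  have ha0 : ∀ i, a' i ≠ 0 := by
    rintro (_ | i)
    · exact one_ne_zero
    · intro h
      exact real i i.2 F (Nat.factorial_pos _) 0 (by simpa [a'] using h)
  obtain ⟨R, hRp, hRs, hR⟩ := hprimes _ a' ha' ha0 (Nat.card k) (Nat.card_pos).ne'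
    (Nat.card k + D)
  refine ⟨R, hRp, hRs, ?_⟩
  intro r hr e L V ι _ _ _ _ _ _ H dim N w j hN t ht
  have hrp : r.Prime := hRp r hr
  have : Fact r.Prime := ⟨hrp⟩
  obtain ⟨hB, -, hq, hΦ⟩ := hR r hr
  obtain ⟨Φ, h0, h1⟩ := hΦ
  have hrk : (r : k) ≠ 0 := by
    intro h
    obtain ⟨p, hp⟩ := CharP.exists k
    have hpp : p.Prime := CharP.char_is_prime k p
    have := Fintype.ofFinite k
    obtain ⟨n, -, hn⟩ := FiniteField.card k p
    rw [CharP.cast_eq_zero_iff k p] at h
    have h2 : p = r := (Nat.prime_dvd_prime_iff_eq hpp hrp).1 h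
    have h3 : Nat.card k = p ^ (n : ℕ) := by rw [Nat.card_eq_fintype_card, hn]
    have h4 : p ≤ p ^ (n : ℕ) := Nat.le_self_pow n.ne_zero p
    omega
  refine tate_of_hom a ha g points hrk (by omega) Φ ?_ H dim hN ht
  intro i hi s heq
  obtain ⟨c, hc⟩ : ord k r ∣ (r - 1) / 2 := orderOf_dvd_of_pow_eq_one hq
  refine h1 (some ⟨i, hi⟩) none ?_ s ?_
  · intro x hx h
    exact real i hi F (Nat.factorial_pos _) x (by simpa [a'] using h)
  · have h2 : (⟨a' none, ha' none⟩ : integralClosure ℤ ℂ) = 1 := rfl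
    have h3 : (⟨a' (some ⟨i, hi⟩), ha' (some ⟨i, hi⟩)⟩ : integralClosure ℤ ℂ) =
        ⟨a i, ha i⟩ ^ F := by
      apply Subtype.ext
      rfl
    rw [h2, map_one, one_pow, h3, map_pow, ← pow_mul, hc]
    have h4 : F * (ord k r * c * r ^ s) = F * (ord k r * r ^ s) * c := by ring
    rw [h4, pow_mul, heq, one_pow]

end Pool.Agent.Helper61.KT
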